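import Mathlib

set_option autoImplicit false

namespace Pool.Agent.H25.Brun

open Finset

/-- residues: number of `m < X` with `m ≡ a mod M` and `m mod q ∈ Om q` for all `q ∈ D` -/
lemma count_D (Om : ℕ → Finset ℕ) (X : ℕ) (D : Finset ℕ) (hD : ∀ q ∈ D, q.Prime)
    (hOm : ∀ q ∈ D, Om q ⊆ range q) :
    ∀ (M a : ℕ), 0 < M → (∀ q ∈ D, M.Coprime q) →
    |(((range X).filter (fun m => m ≡ a [MOD M] ∧ ∀ q ∈ D, m % q ∈ Om q)).card : ℝ) -
      X / M * ∏ q ∈ D, ((Om q).card : ℝ) / q| ≤ ∏ q ∈ D, ((Om q).card : ℝ) := by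
  classical
  induction D using Finset.induction_on with
  | empty =>
    intro M a hM _
    simp only [prod_empty, mul_one, notMem_empty, false_implies, implies_true, and_true]
    have h1 := Nat.count_modEq_card X hM a
    rw [Nat.count_eq_card_filter_range] at h1
    rw [h1]
    have hM' : (0 : ℝ) < M := by exact_mod_cast hM
    have h2 : ((X / M : ℕ) : ℝ) ≤ X / M := Nat.cast_div_le
    have h3 : (X : ℝ) / M < (X / M : ℕ) + 1 := by
      rw [div_lt_iff₀ hM']
      have : X < M * (X / M + 1) := Nat.lt_mul_div_succ X hM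
      have : (X : ℝ) < M * ((X / M : ℕ) + 1) := by exact_mod_cast this
      linarith
    rw [abs_le]
    split_ifs with h
    · push_cast
      constructor <;> linarith
    · push_cast
      constructor <;> linarith
  | insert p D hp ih =>
    intro M a hM hMc
    have hpp := hD p (mem_insert_self p D)
    have hMp : M.Coprime p := hMc p (mem_insert_self p D)
    have ih' := ih (fun q hq => hD q (mem_insert_of_mem hq)) (fun q hq => hOm q (mem_insert_of_mem hq))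
    -- split by residue mod p
    have hsplit : (((range X).filter (fun m => m ≡ a [MOD M] ∧ ∀ q ∈ insert p D, m % q ∈ Om q)).card) =
        ∑ c ∈ Om p, (((range X).filter (fun m => m ≡ (Nat.chineseRemainder hMp a c : ℕ) [MOD M * p] ∧ ∀ q ∈ D, m % q ∈ Om q)).card) := by
      have hmaps : ∀ m ∈ (range X).filter (fun m => m ≡ a [MOD M] ∧ ∀ q ∈ insert p D, m % q ∈ Om q), m % p ∈ Om p := by
        intro m hm
        rw [mem_filter] at hm
        exact hm.2.2 p (mem_insert_self p D)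
      rw [card_eq_sum_card_fiberwise hmaps]
      apply sum_congr rfl
      intro c hc
      congr 1
      ext m
      rw [mem_filter, mem_filter, mem_filter]
      have hcp : c < p := mem_range.1 (hOm p (mem_insert_self p D) hc)
      have key : m ≡ (Nat.chineseRemainder hMp a c : ℕ) [MOD M * p] ↔ (m ≡ a [MOD M] ∧ m % p = c) := by
        have hz := (Nat.chineseRemainder hMp a c).2
        constructor
        · intro h
          have h1 : m ≡ (Nat.chineseRemainder hMp a c : ℕ) [MOD M] := h.of_mul_right p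
          have h2 : m ≡ (Nat.chineseRemainder hMp a c : ℕ) [MOD p] := h.of_mul_left M
          refine ⟨h1.trans hz.1, ?_⟩
          have h3 : m ≡ c [MOD p] := h2.trans hz.2
          have h4 : m % p = c % p := h3
          rw [h4, Nat.mod_eq_of_lt hcp]
        · rintro ⟨h1, h2⟩
          have h3 : m ≡ c [MOD p] := by
            show m % p = c % p
            rw [h2, Nat.mod_eq_of_lt hcp]
          exact (Nat.modEq_and_modEq_iff_modEq_mul hMp).1 ⟨h1.trans hz.1.symm, h3.trans hz.2.symm⟩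
      rw [key]
      constructor
      · rintro ⟨⟨h1, h2, h3⟩, h4⟩
        exact ⟨h1, ⟨h2, h4⟩, fun q hq => h3 q (mem_insert_of_mem hq)⟩
      · rintro ⟨h1, ⟨h2, h4⟩, h3⟩
        refine ⟨⟨h1, h2, ?_⟩, h4⟩
        intro q hq
        rw [mem_insert] at hq
        rcases hq with rfl | hq
        · rw [h4]; exact hc
        · exact h3 q hq
    rw [hsplit]
    push_cast
    rw [prod_insert hp, prod_insert hp]
    have hMp0 : 0 < M * p := Nat.mul_pos hM hpp.pos
    have hcop : ∀ q ∈ D, (M * p).Coprime q := by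
      intro q hq
      apply Nat.Coprime.mul_left
      · exact hMc q (mem_insert_of_mem hq)
      · rw [Nat.coprime_primes hpp (hD q (mem_insert_of_mem hq))]
        intro h
        rw [h] at hp
        exact hp hq
    have hterm : ∀ c ∈ Om p, |(((range X).filter (fun m => m ≡ (Nat.chineseRemainder hMp a c : ℕ) [MOD M * p] ∧ ∀ q ∈ D, m % q ∈ Om q)).card : ℝ) -
        X / ((M * p : ℕ) : ℝ) * ∏ q ∈ D, ((Om q).card : ℝ) / q| ≤ ∏ q ∈ D, ((Om q).card : ℝ) := by
      intro c _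
      exact ih' (M * p) _ hMp0 hcop
    have e1 : (X : ℝ) / M * (((Om p).card : ℝ) / p * ∏ q ∈ D, ((Om q).card : ℝ) / q) =
        ∑ c ∈ Om p, (X / ((M * p : ℕ) : ℝ) * ∏ q ∈ D, ((Om q).card : ℝ) / q) := by
      rw [sum_const, nsmul_eq_mul]
      push_cast
      have h1 : (M : ℝ) ≠ 0 := by exact_mod_cast hM.ne'
      have h2 : (p : ℝ) ≠ 0 := by exact_mod_cast hpp.ne_zero
      field_simp
    rw [e1, ← sum_sub_distrib]
    refine (abs_sum_le_sum_abs _ _).trans ?_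
    refine (sum_le_sum hterm).trans (le_of_eq ?_)
    rw [sum_const, nsmul_eq_mul]

lemma count_D' (Om : ℕ → Finset ℕ) (X : ℕ) (D : Finset ℕ) (hD : ∀ q ∈ D, q.Prime)
    (hOm : ∀ q ∈ D, Om q ⊆ range q) :
    |(((range X).filter (fun m => ∀ q ∈ D, m % q ∈ Om q)).card : ℝ) -
      X * ∏ q ∈ D, ((Om q).card : ℝ) / q| ≤ ∏ q ∈ D, ((Om q).card : ℝ) := by
  have h := count_D Om X D hD hOm 1 0 one_pos (fun q _ => Nat.coprime_one_left q)
  have e : (range X).filter (fun m => m ≡ 0 [MOD 1] ∧ ∀ q ∈ D, m % q ∈ Om q) =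
      (range X).filter (fun m => ∀ q ∈ D, m % q ∈ Om q) := by
    apply filter_congr
    intro m _
    simp [Nat.modEq_one]
  rw [e] at h
  simpa using h

/-- Bonferroni -/
lemma bonferroni (B : Finset ℕ) (r : ℕ) (hr : Odd r) :
    ∑ D ∈ B.powerset.filter (fun D => D.card ≤ r), (-1 : ℝ) ^ D.card ≤ if B = ∅ then 1 else 0 := by
  classical
  have h1 : ∑ D ∈ B.powerset.filter (fun D => D.card ≤ r), (-1 : ℝ) ^ D.card =
      ∑ i ∈ range (r + 1), (-1 : ℝ) ^ i * (B.card.choose i : ℝ) := by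
    have hmaps : ∀ D ∈ B.powerset.filter (fun D => D.card ≤ r), D.card ∈ range (r + 1) := by
      intro D hD
      rw [mem_filter] at hD
      rw [mem_range]
      omega
    rw [← sum_fiberwise_of_maps_to hmaps]
    apply sum_congr rfl
    intro i hi
    rw [mem_range] at hi
    have e : (B.powerset.filter (fun D => D.card ≤ r)).filter (fun D => D.card = i) = powersetCard i B := by
      ext D
      rw [mem_filter, mem_filter, mem_powerset, mem_powersetCard]
      constructor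
      · rintro ⟨⟨h1, _⟩, h3⟩; exact ⟨h1, h3⟩
      · rintro ⟨h1, h3⟩; exact ⟨⟨h1, by omega⟩, h3⟩
    rw [e]
    have e2 : ∑ D ∈ powersetCard i B, (-1 : ℝ) ^ D.card = ∑ D ∈ powersetCard i B, (-1 : ℝ) ^ i := by
      apply sum_congr rfl
      intro D hD
      rw [(mem_powersetCard.1 hD).2]
    rw [e2, sum_const, card_powersetCard, nsmul_eq_mul, mul_comm]
  rw [h1]
  by_cases hB : B = ∅
  · rw [if_pos hB, hB]
    simp only [card_empty]
    rw [sum_range_succ']
    simp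
  · rw [if_neg hB]
    have hb : 0 < B.card := card_pos.2 (nonempty_iff_ne_empty.2 hB)
    obtain ⟨b, hb'⟩ : ∃ b, B.card = b + 1 := ⟨B.card - 1, by omega⟩
    rw [hb']
    have h2 := @Int.alternating_sum_range_choose_eq_choose b r
    have h3 : ∑ i ∈ range (r + 1), (-1 : ℝ) ^ i * ((b + 1).choose i : ℝ) = (-1) ^ r * (b.choose r : ℝ) := by
      exact_mod_cast h2
    rw [h3, hr.neg_one_pow]
    have : (0 : ℝ) ≤ (b.choose r : ℝ) := by positivity
    linarith

lemma exp_le_one_sub {x : ℝ} (h0 : 0 ≤ x) (h1 : x ≤ 1 / 2) : Real.exp (-(2 * x)) ≤ 1 - x := by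
  have h2 : 0 < 1 - x := by linarith
  have h3 : (1 - x)⁻¹ ≤ Real.exp (2 * x) := by
    have h4 := Real.add_one_le_exp (2 * x)
    refine le_trans ?_ h4
    rw [inv_le_iff_one_le_mul₀ h2]
    nlinarith
  rw [Real.exp_neg]
  exact inv_le_of_inv_le₀ h2 h3

lemma neg_one_pow_mul_le {c : ℝ} (hc : 0 ≤ c) (n : ℕ) : (-1 : ℝ) ^ n * c ≤ c := by
  rcases neg_one_pow_eq_or ℝ n with h | h
  · rw [h]; linarith
  · rw [h]; linarith

lemma prod_one_add_le_exp (Q : Finset ℕ) (y : ℕ → ℝ) (hy0 : ∀ q, 0 ≤ y q) (S : ℝ)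
    (hS : ∑ q ∈ Q, y q ≤ S) : ∏ q ∈ Q, (1 + y q) ≤ Real.exp S := by
  calc ∏ q ∈ Q, (1 + y q) ≤ ∏ q ∈ Q, Real.exp (y q) := by
        apply prod_le_prod
        · intro q _; have := hy0 q; positivity
        · intro q _
          have := Real.add_one_le_exp (y q)
          linarith
    _ = Real.exp (∑ q ∈ Q, y q) := (Real.exp_sum _ _).symm
    _ ≤ _ := Real.exp_le_exp.2 hS

lemma tail_term (Q : Finset ℕ) (x : ℕ → ℝ) (hx0 : ∀ q, 0 ≤ x q)
    (S : ℝ) (hS : ∑ q ∈ Q, x q ≤ S) (r : ℕ) :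
    ∑ D ∈ Q.powerset.filter (fun D => ¬ D.card ≤ r), (-1 : ℝ) ^ D.card * ∏ q ∈ D, x q ≤
      (1 / 8) ^ r * Real.exp (8 * S) := by
  have hpt : ∀ D ∈ Q.powerset.filter (fun D => ¬ D.card ≤ r),
      (-1 : ℝ) ^ D.card * ∏ q ∈ D, x q ≤ (1 / 8) ^ r * ∏ q ∈ D, (8 * x q) := by
    intro D hD
    rw [mem_filter] at hD
    have hp0 : 0 ≤ ∏ q ∈ D, x q := prod_nonneg (fun q _ => hx0 q)
    rw [prod_mul_distrib, prod_const]
    have h8 : (8 : ℝ) ^ r ≤ 8 ^ D.card := pow_le_pow_right₀ (by norm_num) (by omega)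
    have h9 : (1 : ℝ) ≤ (1 / 8) ^ r * 8 ^ D.card := by
      rw [one_div, inv_pow, inv_mul_eq_div, le_div_iff₀ (by positivity), one_mul]
      exact h8
    calc (-1 : ℝ) ^ D.card * ∏ q ∈ D, x q ≤ 1 * ∏ q ∈ D, x q := by
          rw [one_mul]; exact neg_one_pow_mul_le hp0 _
      _ ≤ ((1 / 8) ^ r * 8 ^ D.card) * ∏ q ∈ D, x q := mul_le_mul_of_nonneg_right h9 hp0
      _ = _ := by ring
  have h8 : ∀ D : Finset ℕ, 0 ≤ (1 / 8 : ℝ) ^ r * ∏ q ∈ D, (8 * x q) := by
    intro D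
    apply mul_nonneg (by positivity)
    exact prod_nonneg (fun q _ => mul_nonneg (by norm_num) (hx0 q))
  refine (sum_le_sum hpt).trans ?_
  refine (sum_le_sum_of_subset_of_nonneg (filter_subset _ _) (fun D _ _ => h8 D)).trans ?_
  rw [← mul_sum, ← prod_one_add]
  apply mul_le_mul_of_nonneg_left _ (by positivity)
  apply prod_one_add_le_exp Q (fun q => 8 * x q) (fun q => mul_nonneg (by norm_num) (hx0 q))
  rw [← mul_sum]
  linarith

lemma tail_num (S : ℝ) (r : ℕ) (hrS : 5 * S + 1 ≤ r) :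
    (1 / 8 : ℝ) ^ r * Real.exp (8 * S) ≤ 1 / 2 * Real.exp (-(2 * S)) := by
  have h1 : Real.exp (2 * (r : ℝ)) ≤ 8 ^ r := by
    have : Real.exp (2 * (r : ℝ)) = (Real.exp 2) ^ r := by rw [← Real.exp_nat_mul, mul_comm]
    rw [this]
    apply pow_le_pow_left₀ (Real.exp_pos 2).le
    have e1 := Real.exp_one_lt_d9
    have e0 := Real.exp_pos 1
    have e2 : Real.exp 2 = Real.exp 1 * Real.exp 1 := by rw [← Real.exp_add]; norm_num
    rw [e2]
    nlinarith
  have h2 : Real.exp (10 * S) * 2 ≤ Real.exp (2 * (r : ℝ)) := by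
    have h3 : (2 : ℝ) ≤ Real.exp 2 := by
      have := Real.add_one_le_exp (2 : ℝ)
      linarith
    calc Real.exp (10 * S) * 2 ≤ Real.exp (10 * S) * Real.exp 2 :=
          mul_le_mul_of_nonneg_left h3 (Real.exp_pos _).le
      _ = Real.exp (10 * S + 2) := by rw [Real.exp_add]
      _ ≤ _ := Real.exp_le_exp.2 (by linarith)
  have h3 := h2.trans h1
  have h8 : (0 : ℝ) < 8 ^ r := by positivity
  rw [one_div, inv_pow, inv_mul_eq_div, div_le_iff₀ h8]
  have e : Real.exp (8 * S) = Real.exp (10 * S) * Real.exp (-(2 * S)) := by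
    rw [← Real.exp_add]; congr 1; ring
  rw [e]
  have h4 := Real.exp_pos (-(2 * S))
  have h5 : Real.exp (10 * S) * 2 * Real.exp (-(2 * S)) ≤ 8 ^ r * Real.exp (-(2 * S)) :=
    mul_le_mul_of_nonneg_right h3 h4.le
  linarith

lemma main_term (Q : Finset ℕ) (x : ℕ → ℝ) (hx0 : ∀ q, 0 ≤ x q) (hxhalf : ∀ q ∈ Q, x q ≤ 1 / 2)
    (S : ℝ) (hS : ∑ q ∈ Q, x q ≤ S) (r : ℕ) (hrS : 5 * S + 1 ≤ r) :
    1 / 2 * Real.exp (-(2 * S)) ≤
      ∑ D ∈ Q.powerset.filter (fun D => D.card ≤ r), (-1 : ℝ) ^ D.card * ∏ q ∈ D, x q := by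
  have hprod : ∏ q ∈ Q, (1 - x q) = ∑ D ∈ Q.powerset, (-1 : ℝ) ^ D.card * ∏ q ∈ D, x q := by
    have h1 := prod_one_add (f := fun q => - x q) Q
    have h2 : ∏ q ∈ Q, (1 - x q) = ∏ q ∈ Q, (1 + - x q) := prod_congr rfl (fun q _ => by ring)
    rw [h2, h1]
    apply sum_congr rfl
    intro D _
    have : ∀ q ∈ D, - x q = (-1) * x q := fun q _ => by ring
    rw [prod_congr rfl this, prod_mul_distrib, prod_const]
  have hsplit := sum_filter_add_sum_filter_not Q.powerset (fun D => D.card ≤ r)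
    (fun D => (-1 : ℝ) ^ D.card * ∏ q ∈ D, x q)
  have htail := tail_term Q x hx0 S hS r
  have hlow : Real.exp (-(2 * S)) ≤ ∏ q ∈ Q, (1 - x q) := by
    calc Real.exp (-(2 * S)) ≤ Real.exp (∑ q ∈ Q, -(2 * x q)) := by
          apply Real.exp_le_exp.2
          rw [sum_neg_distrib, ← mul_sum]
          linarith
      _ = ∏ q ∈ Q, Real.exp (-(2 * x q)) := Real.exp_sum _ _
      _ ≤ _ := by
          apply prod_le_prod
          · intro q _; positivity
          · intro q hq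
            exact exp_le_one_sub (hx0 q) (hxhalf q hq)
  have htail2 := tail_num S r hrS
  rw [hprod, ← hsplit] at hlow
  linarith

lemma err_term (Q : Finset ℕ) (c : ℕ → ℝ) (hc0 : ∀ q, 0 ≤ c q)
    (T : ℝ) (hT1 : 1 ≤ T) (hT : ∑ q ∈ Q, c q ≤ T) (r : ℕ) :
    ∑ D ∈ Q.powerset.filter (fun D => D.card ≤ r), ∏ q ∈ D, c q ≤ 3 * T ^ r := by
  have hT0 : 0 < T := by linarith
  have hpt : ∀ D ∈ Q.powerset.filter (fun D => D.card ≤ r),
      ∏ q ∈ D, c q ≤ T ^ r * ∏ q ∈ D, (c q / T) := by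
    intro D hD
    rw [mem_filter] at hD
    rw [prod_div_distrib, prod_const]
    have hp0 : 0 ≤ ∏ q ∈ D, c q := prod_nonneg (fun q _ => hc0 q)
    rw [mul_div_assoc', le_div_iff₀ (by positivity), mul_comm]
    apply mul_le_mul_of_nonneg_right _ hp0
    exact pow_le_pow_right₀ hT1 hD.2
  have h8 : ∀ D : Finset ℕ, 0 ≤ T ^ r * ∏ q ∈ D, (c q / T) := by
    intro D
    apply mul_nonneg (by positivity)
    exact prod_nonneg (fun q _ => div_nonneg (hc0 q) hT0.le)
  refine (sum_le_sum hpt).trans ?_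
  refine (sum_le_sum_of_subset_of_nonneg (filter_subset _ _) (fun D _ _ => h8 D)).trans ?_
  rw [← mul_sum, ← prod_one_add]
  have h9 : ∏ q ∈ Q, (1 + c q / T) ≤ Real.exp 1 := by
    apply prod_one_add_le_exp Q (fun q => c q / T) (fun q => div_nonneg (hc0 q) hT0.le)
    rw [← sum_div, div_le_one hT0]
    exact hT
  have h10 := Real.exp_one_lt_d9
  have h2 : 0 < T ^ r := by positivity
  calc T ^ r * ∏ q ∈ Q, (1 + c q / T) ≤ T ^ r * 3 := by
        apply mul_le_mul_of_nonneg_left _ h2.le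
        linarith
    _ = _ := by ring

lemma Z_lower (Q : Finset ℕ) (Om : ℕ → Finset ℕ) (r : ℕ) (hr : Odd r) (X : ℕ) :
    ∑ D ∈ Q.powerset.filter (fun D => D.card ≤ r),
      (-1 : ℝ) ^ D.card * (((range X).filter (fun m => ∀ q ∈ D, m % q ∈ Om q)).card : ℝ) ≤
    (((range X).filter (fun m => ∀ q ∈ Q, m % q ∉ Om q)).card : ℝ) := by
  classical
  have e1 : ∀ D ∈ Q.powerset.filter (fun D => D.card ≤ r),
      (-1 : ℝ) ^ D.card * (((range X).filter (fun m => ∀ q ∈ D, m % q ∈ Om q)).card : ℝ) =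
      ∑ m ∈ range X, (if ∀ q ∈ D, m % q ∈ Om q then (-1 : ℝ) ^ D.card else 0) := by
    intro D _
    rw [← sum_filter, sum_const, nsmul_eq_mul, mul_comm]
  rw [sum_congr rfl e1, sum_comm]
  have e2 : (((range X).filter (fun m => ∀ q ∈ Q, m % q ∉ Om q)).card : ℝ) =
      ∑ m ∈ range X, (if ∀ q ∈ Q, m % q ∉ Om q then (1 : ℝ) else 0) := by
    rw [sum_boole]
  rw [e2]
  apply sum_le_sum
  intro m _
  have h1 := bonferroni (Q.filter (fun q => m % q ∈ Om q)) r hr
  have e3 : ∑ D ∈ Q.powerset.filter (fun D => D.card ≤ r), (if ∀ q ∈ D, m % q ∈ Om q then (-1 : ℝ) ^ D.card else 0) =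
      ∑ D ∈ (Q.filter (fun q => m % q ∈ Om q)).powerset.filter (fun D => D.card ≤ r), (-1 : ℝ) ^ D.card := by
    rw [← sum_filter]
    apply sum_congr _ (fun _ _ => rfl)
    ext D
    rw [mem_filter, mem_filter, mem_filter, mem_powerset, mem_powerset]
    constructor
    · rintro ⟨⟨h1, h2⟩, h3⟩
      exact ⟨fun q hq => mem_filter.2 ⟨h1 hq, h3 q hq⟩, h2⟩
    · rintro ⟨h1, h2⟩
      exact ⟨⟨fun q hq => (mem_filter.1 (h1 hq)).1, h2⟩, fun q hq => (mem_filter.1 (h1 hq)).2⟩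
  rw [e3]
  refine h1.trans (le_of_eq ?_)
  congr 1
  rw [filter_eq_empty_iff]

/-- Brun's pure sieve, existence form -/
theorem exists_survivor (Q : Finset ℕ) (hQ : ∀ q ∈ Q, q.Prime) (Om : ℕ → Finset ℕ)
    (hOm : ∀ q ∈ Q, Om q ⊆ range q) (hhalf : ∀ q ∈ Q, 2 * (Om q).card ≤ q)
    (S T : ℝ) (hS : ∑ q ∈ Q, ((Om q).card : ℝ) / q ≤ S) (hT1 : 1 ≤ T)
    (hT : ∑ q ∈ Q, ((Om q).card : ℝ) ≤ T) (r : ℕ) (hr : Odd r) (hrS : 5 * S + 1 ≤ r)
    (X : ℕ) (hX : 2 * Real.exp (2 * S) * (3 * T ^ r + 2) ≤ X) :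
    ∃ m : ℕ, 1 ≤ m ∧ m < X ∧ ∀ q ∈ Q, m % q ∉ Om q := by
  classical
  obtain ⟨x, hx⟩ : ∃ x : ℕ → ℝ, ∀ q, x q = ((Om q).card : ℝ) / q := ⟨_, fun _ => rfl⟩
  have hx0 : ∀ q, 0 ≤ x q := fun q => by rw [hx]; positivity
  have hxhalf : ∀ q ∈ Q, x q ≤ 1 / 2 := by
    intro q hq
    have hq0 : (0 : ℝ) < q := by exact_mod_cast (hQ q hq).pos
    rw [hx, div_le_iff₀ hq0]
    have : (2 : ℝ) * (Om q).card ≤ q := by exact_mod_cast hhalf q hq
    linarith
  have hS' : ∑ q ∈ Q, x q ≤ S := by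
    rw [sum_congr rfl (fun q _ => hx q)]
    exact hS
  have hZlow := Z_lower Q Om r hr X
  have hmain : ∑ D ∈ Q.powerset.filter (fun D => D.card ≤ r), (-1 : ℝ) ^ D.card * (X * ∏ q ∈ D, x q) -
      ∑ D ∈ Q.powerset.filter (fun D => D.card ≤ r), ∏ q ∈ D, ((Om q).card : ℝ) ≤
      ∑ D ∈ Q.powerset.filter (fun D => D.card ≤ r),
        (-1 : ℝ) ^ D.card * (((range X).filter (fun m => ∀ q ∈ D, m % q ∈ Om q)).card : ℝ) := by
    rw [← sum_sub_distrib]
    apply sum_le_sum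
    intro D hD
    rw [mem_filter, mem_powerset] at hD
    have h1 := count_D' Om X D (fun q hq => hQ q (hD.1 hq)) (fun q hq => hOm q (hD.1 hq))
    rw [← prod_congr rfl (fun q _ => hx q)] at h1
    have h2 := abs_le.1 h1
    rcases neg_one_pow_eq_or ℝ D.card with h | h
    · rw [h]
      linarith [h2.1]
    · rw [h]
      linarith [h2.2]
  have hF1 := main_term Q x hx0 hxhalf S hS' r hrS
  have herr := err_term Q (fun q => ((Om q).card : ℝ)) (fun q => by positivity) T hT1 hT r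
  have hfac : ∑ D ∈ Q.powerset.filter (fun D => D.card ≤ r), (-1 : ℝ) ^ D.card * (X * ∏ q ∈ D, x q) =
      X * ∑ D ∈ Q.powerset.filter (fun D => D.card ≤ r), (-1 : ℝ) ^ D.card * ∏ q ∈ D, x q := by
    rw [mul_sum]
    apply sum_congr rfl
    intro D _
    ring
  have hZ2 : (2 : ℝ) ≤ (((range X).filter (fun m => ∀ q ∈ Q, m % q ∉ Om q)).card : ℝ) := by
    have h1 : (X : ℝ) * (1 / 2 * Real.exp (-(2 * S))) ≤
        X * ∑ D ∈ Q.powerset.filter (fun D => D.card ≤ r), (-1 : ℝ) ^ D.card * ∏ q ∈ D, x q :=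
      mul_le_mul_of_nonneg_left hF1 (by positivity)
    have h2 : 3 * T ^ r + 2 ≤ (X : ℝ) * (1 / 2 * Real.exp (-(2 * S))) := by
      have h3 : Real.exp (2 * S) * Real.exp (-(2 * S)) = 1 := by rw [← Real.exp_add]; simp
      calc 3 * T ^ r + 2 = (2 * Real.exp (2 * S) * (3 * T ^ r + 2)) * (1 / 2 * Real.exp (-(2 * S))) := by
            linear_combination (-(3 * T ^ r + 2)) * h3
        _ ≤ _ := mul_le_mul_of_nonneg_right hX (by positivity)
    rw [hfac] at hmain
    linarith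
  have hZ3 : 2 ≤ ((range X).filter (fun m => ∀ q ∈ Q, m % q ∉ Om q)).card := by exact_mod_cast hZ2
  have hZ4 : (((range X).filter (fun m => ∀ q ∈ Q, m % q ∉ Om q)).erase 0).Nonempty := by
    rw [← card_pos]
    have := pred_card_le_card_erase (s := (range X).filter (fun m => ∀ q ∈ Q, m % q ∉ Om q)) (a := 0)
    omega
  obtain ⟨m, hm⟩ := hZ4
  rw [mem_erase, mem_filter, mem_range] at hm
  exact ⟨m, by omega, hm.2.1, hm.2.2⟩

end Pool.Agent.H25.Brun
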