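import Mathlib

set_option autoImplicit false

namespace Pool.Agent.H25.DivBound

open Finset Filter

/-- splitting the divisor function at a threshold `t` -/
lemma div_split (n : ℕ) (hn : 2 ≤ n) (t : ℝ) (ht : 1 < t) :
    (n.divisors.card : ℝ) ≤ (3 * Real.log n) ^ (t + 1) * (2 : ℝ) ^ (Real.log n / Real.log t) ∨
    Real.log n < 1 := by
  classical
  by_cases hL : Real.log n < 1
  · exact Or.inr hL
  left
  push Not at hL
  have hn0 : n ≠ 0 := by omega
  have hnR : (0 : ℝ) < n := by exact_mod_cast (by omega : 0 < n)
  have h1 : n.divisors.card = ∏ p ∈ n.primeFactors, (n.factorization p + 1) := Nat.card_divisors hn0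
  rw [h1]
  push_cast
  rw [← prod_filter_mul_prod_filter_not n.primeFactors (fun p : ℕ => (p : ℝ) < t)]
  have hL0 : 0 < Real.log n := by linarith
  have hlogt : 0 < Real.log t := Real.log_pos ht
  apply mul_le_mul
  · -- small primes
    have hfac : ∀ p ∈ n.primeFactors.filter (fun p : ℕ => (p : ℝ) < t), ((n.factorization p : ℝ) + 1) ≤ 3 * Real.log n := by
      intro p hp
      rw [mem_filter] at hp
      have hpp := Nat.prime_of_mem_primeFactors hp.1
      have h2 : p ^ n.factorization p ≤ n := Nat.ordProj_le p hn0
      have h3 : 2 ^ n.factorization p ≤ n := (Nat.pow_le_pow_left hpp.two_le _).trans h2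
      have h4 : ((2 : ℝ) ^ n.factorization p) ≤ n := by exact_mod_cast h3
      have h5 := Real.log_le_log (by positivity) h4
      rw [Real.log_pow] at h5
      have h6 := Real.log_two_gt_d9
      have h7 : (0 : ℝ) ≤ n.factorization p := by positivity
      nlinarith
    calc ∏ p ∈ n.primeFactors.filter (fun p : ℕ => (p : ℝ) < t), ((n.factorization p : ℝ) + 1)
        ≤ ∏ p ∈ n.primeFactors.filter (fun p : ℕ => (p : ℝ) < t), (3 * Real.log n) := by
          apply Finset.prod_le_prod
          · intro p _; positivity
          · exact hfac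
      _ = (3 * Real.log n) ^ (n.primeFactors.filter (fun p : ℕ => (p : ℝ) < t)).card := by rw [prod_const]
      _ = (3 * Real.log n) ^ (((n.primeFactors.filter (fun p : ℕ => (p : ℝ) < t)).card : ℕ) : ℝ) := by
          rw [Real.rpow_natCast]
      _ ≤ (3 * Real.log n) ^ (t + 1) := by
          apply Real.rpow_le_rpow_of_exponent_le (by linarith)
          have h2 : (n.primeFactors.filter (fun p : ℕ => (p : ℝ) < t)) ⊆ range (⌈t⌉₊) := by
            intro p hp
            rw [mem_filter] at hp
            rw [mem_range]
            exact Nat.lt_ceil.2 hp.2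
          have h3 := card_le_card h2
          rw [card_range] at h3
          have h4 : ((n.primeFactors.filter (fun p : ℕ => (p : ℝ) < t)).card : ℝ) ≤ ⌈t⌉₊ := by exact_mod_cast h3
          have h5 := Nat.ceil_lt_add_one (show (0 : ℝ) ≤ t by linarith)
          linarith
  · -- large primes
    have hfac : ∀ p ∈ n.primeFactors.filter (fun p : ℕ => ¬ (p : ℝ) < t), ((n.factorization p : ℝ) + 1) ≤ 2 ^ n.factorization p := by
      intro p _
      have : n.factorization p + 1 ≤ 2 ^ n.factorization p := Nat.lt_two_pow_self
      exact_mod_cast this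
    calc ∏ p ∈ n.primeFactors.filter (fun p : ℕ => ¬ (p : ℝ) < t), ((n.factorization p : ℝ) + 1)
        ≤ ∏ p ∈ n.primeFactors.filter (fun p : ℕ => ¬ (p : ℝ) < t), (2 : ℝ) ^ n.factorization p := by
          apply Finset.prod_le_prod
          · intro p _; positivity
          · exact hfac
      _ = (2 : ℝ) ^ (∑ p ∈ n.primeFactors.filter (fun p : ℕ => ¬ (p : ℝ) < t), n.factorization p) := by
          rw [prod_pow_eq_pow_sum]
      _ = (2 : ℝ) ^ (((∑ p ∈ n.primeFactors.filter (fun p : ℕ => ¬ (p : ℝ) < t), n.factorization p : ℕ)) : ℝ) := by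
          rw [Real.rpow_natCast]
      _ ≤ _ := by
          apply Real.rpow_le_rpow_of_exponent_le (by norm_num)
          rw [le_div_iff₀ hlogt]
          have h2 : t ^ (∑ p ∈ n.primeFactors.filter (fun p : ℕ => ¬ (p : ℝ) < t), n.factorization p) ≤ n := by
            calc t ^ (∑ p ∈ n.primeFactors.filter (fun p : ℕ => ¬ (p : ℝ) < t), n.factorization p)
                = ∏ p ∈ n.primeFactors.filter (fun p : ℕ => ¬ (p : ℝ) < t), t ^ n.factorization p := by
                  rw [prod_pow_eq_pow_sum]
              _ ≤ ∏ p ∈ n.primeFactors.filter (fun p : ℕ => ¬ (p : ℝ) < t), (p : ℝ) ^ n.factorization p := by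
                  apply Finset.prod_le_prod
                  · intro p _; positivity
                  · intro p hp
                    rw [mem_filter, not_lt] at hp
                    exact pow_le_pow_left₀ (by linarith) hp.2 _
              _ ≤ ∏ p ∈ n.primeFactors, (p : ℝ) ^ n.factorization p := by
                  rw [← prod_filter_mul_prod_filter_not n.primeFactors (fun p : ℕ => (p : ℝ) < t)]
                  apply le_mul_of_one_le_left
                  · exact prod_nonneg (fun _ _ => by positivity)
                  · have : (1 : ℝ) = ∏ p ∈ n.primeFactors.filter (fun p : ℕ => (p : ℝ) < t), (1 : ℝ) := by simp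
                    rw [this]
                    apply Finset.prod_le_prod
                    · intro _ _; norm_num
                    · intro p hp
                      rw [mem_filter] at hp
                      have := (Nat.prime_of_mem_primeFactors hp.1).one_le
                      have h3 : (1 : ℝ) ≤ p := by exact_mod_cast this
                      exact one_le_pow₀ h3
              _ = n := by
                  have := Nat.prod_factorization_pow_eq_self hn0
                  have h3 : ∏ p ∈ n.primeFactors, p ^ n.factorization p = n := this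
                  exact_mod_cast h3
          have h3 := Real.log_le_log (by positivity) h2
          rw [Real.log_pow] at h3
          exact h3
  · exact prod_nonneg (fun _ _ => by positivity)
  · positivity

/-- the final form -/
theorem div_bound : ∀ᶠ n : ℕ in atTop, (n.divisors.card : ℝ) ≤
    Real.exp (3 * (Real.log n / Real.log (Real.log n))) := by
  -- asymptotic facts in L = log n
  have hA : ∀ᶠ L : ℝ in atTop, (Real.sqrt L + 1) * Real.log (3 * L) + 2 * Real.log 2 * (L / Real.log L) ≤
      3 * (L / Real.log L) := by
    -- (sqrt L + 1) log(3L) log L ≤ (3 - 2 log 2) L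
    have h1 : Tendsto (fun L : ℝ => Real.log L ^ 2 / Real.sqrt L) atTop (nhds 0) := by
      have := (isLittleO_log_rpow_rpow_atTop (s := 1 / 2) 2 (by norm_num)).tendsto_div_nhds_zero
      refine this.congr (fun x => ?_)
      rw [Real.sqrt_eq_rpow]
      norm_num
    have h2 : ∀ᶠ L : ℝ in atTop, Real.log L ^ 2 / Real.sqrt L < 1 / 10 := h1.eventually_lt_const (by norm_num)
    filter_upwards [h2, eventually_ge_atTop 9, eventually_gt_atTop (Real.exp 1)] with L hL hL9 hLe
    have hL0 : 0 < L := by linarith
    have hs : 0 < Real.sqrt L := Real.sqrt_pos.2 hL0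
    have hss : Real.sqrt L * Real.sqrt L = L := Real.mul_self_sqrt hL0.le
    have hs3 : 3 ≤ Real.sqrt L := Real.le_sqrt_of_sq_le (by linarith)
    have hlog1 : 1 < Real.log L := by
      rw [← Real.log_exp 1]
      exact Real.log_lt_log (Real.exp_pos 1) hLe
    rw [div_lt_iff₀ hs] at hL
    have h3L : Real.log (3 * L) ≤ 2 * Real.log L := by
      rw [Real.log_mul (by norm_num) hL0.ne']
      have : Real.log 3 ≤ Real.log L := Real.log_le_log (by norm_num) (by linarith)
      linarith
    have hl2 := Real.log_two_lt_d9
    have h4 : (Real.sqrt L + 1) * Real.log (3 * L) ≤ (8 / 5) * (L / Real.log L) := by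
      rw [mul_div_assoc', le_div_iff₀ (by linarith)]
      have h5 : (Real.sqrt L + 1) * Real.log (3 * L) * Real.log L ≤ (2 * Real.sqrt L) * (2 * Real.log L) * Real.log L := by
        apply mul_le_mul_of_nonneg_right _ (by linarith)
        apply mul_le_mul (by linarith) h3L
        · apply Real.log_nonneg; linarith
        · positivity
      refine h5.trans ?_
      have h6 : (2 * Real.sqrt L) * (2 * Real.log L) * Real.log L = 4 * Real.sqrt L * (Real.log L ^ 2) := by ring
      rw [h6]
      nlinarith
    have h7 : 0 ≤ L / Real.log L := by positivity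
    nlinarith
  have hlog : Tendsto (fun n : ℕ => Real.log n) atTop atTop :=
    Real.tendsto_log_atTop.comp tendsto_natCast_atTop_atTop
  have hA' := hlog.eventually hA
  filter_upwards [hA', hlog.eventually (eventually_gt_atTop (1 : ℝ)),
    hlog.eventually (eventually_gt_atTop (Real.exp 1)), eventually_ge_atTop 2] with n h1 h2 h2e h3
  set L := Real.log n with hL
  have hL0 : 0 < L := by linarith
  have ht : 1 < Real.sqrt L := by
    rw [Real.lt_sqrt (by norm_num)]; linarith
  rcases div_split n h3 (Real.sqrt L) ht with h | h
  · refine h.trans ?_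
    rw [← hL]
    have hlogsqrt : Real.log (Real.sqrt L) = Real.log L / 2 := by
      rw [Real.log_sqrt hL0.le]
    have hlogL : 0 < Real.log L := Real.log_pos h2
    have e1 : (3 * L) ^ (Real.sqrt L + 1) = Real.exp ((Real.sqrt L + 1) * Real.log (3 * L)) := by
      rw [Real.rpow_def_of_pos (by positivity), mul_comm]
    have e2 : (2 : ℝ) ^ (L / Real.log (Real.sqrt L)) = Real.exp (2 * Real.log 2 * (L / Real.log L)) := by
      rw [Real.rpow_def_of_pos (by norm_num), hlogsqrt]
      congr 1
      field_simp
    rw [e1, e2, ← Real.exp_add]
    exact Real.exp_le_exp.2 h1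
  · linarith

end Pool.Agent.H25.DivBound
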