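import Mathlib
import Pool.Agent.H25.Brun

set_option autoImplicit false

namespace Pool.Agent.H25.KBound

open Finset Pool.Agent.H25.Brun

/-- bad residues -/
def Om (n k0 q : ℕ) : Finset ℕ :=
  (range q).filter (fun a => (((k0 * a : ℕ) : ZMod q)) ^ n = 1)

lemma Om_sub (n k0 q : ℕ) : Om n k0 q ⊆ range q := filter_subset _ _

lemma mem_Om (n k0 q m : ℕ) (hq : 0 < q) : m % q ∈ Om n k0 q ↔ (((k0 * m : ℕ) : ZMod q)) ^ n = 1 := by
  unfold Om
  rw [mem_filter, mem_range]
  have : (((k0 * (m % q) : ℕ) : ZMod q)) = ((k0 * m : ℕ) : ZMod q) := by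
    push_cast
    rw [ZMod.natCast_mod]
  rw [this]
  constructor
  · exact fun h => h.2
  · exact fun h => ⟨Nat.mod_lt _ hq, h⟩

lemma card_Om (n k0 q : ℕ) (hq : q.Prime) (hn : 0 < n) (hk : ¬ q ∣ k0) :
    (Om n k0 q).card ≤ Nat.gcd n (q - 1) := by
  classical
  have : Fact q.Prime := ⟨hq⟩
  have hk0 : ((k0 : ℕ) : ZMod q) ≠ 0 := by
    rw [Ne, ZMod.natCast_eq_zero_iff]
    exact hk
  have hg : 0 < Nat.gcd n (q - 1) := Nat.gcd_pos_of_pos_left _ hn
  have h1 : (Om n k0 q).card ≤ ((Polynomial.nthRoots (Nat.gcd n (q - 1)) (1 : ZMod q)).toFinset).card := by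
    apply card_le_card_of_injOn (fun a => ((k0 * a : ℕ) : ZMod q))
    · intro a ha
      rw [mem_coe, Om, mem_filter] at ha
      rw [mem_coe, Multiset.mem_toFinset, Polynomial.mem_nthRoots hg]
      beta_reduce
      have hne : ((k0 * a : ℕ) : ZMod q) ≠ 0 := by
        intro h
        rw [h, zero_pow hn.ne'] at ha
        exact zero_ne_one ha.2
      exact pow_gcd_eq_one.2 ⟨ha.2, ZMod.pow_card_sub_one_eq_one hne⟩
    · intro a ha b hb hab
      rw [mem_coe, Om, mem_filter, mem_range] at ha hb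
      beta_reduce at hab
      push_cast at hab
      have h2 := mul_left_cancel₀ hk0 hab
      rw [ZMod.natCast_eq_natCast_iff'] at h2
      rwa [Nat.mod_eq_of_lt ha.1, Nat.mod_eq_of_lt hb.1] at h2
  exact h1.trans ((Multiset.toFinset_card_le _).trans (Polynomial.card_nthRoots _ _))

/-- bound on the number of prime factors of `2^n - 1` -/
lemma omega_le (n : ℕ) : (2 ^ n - 1).primeFactors.card ≤ n := by
  rcases Nat.eq_zero_or_pos n with h | h
  · subst h; simp
  have hpos : 0 < 2 ^ n - 1 := by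
    have : 1 < 2 ^ n := Nat.one_lt_two_pow h.ne'
    omega
  have h1 : 2 ^ (2 ^ n - 1).primeFactors.card ≤ ∏ p ∈ (2 ^ n - 1).primeFactors, p := by
    rw [← prod_const]
    apply prod_le_prod' 
    intro p hp
    exact (Nat.prime_of_mem_primeFactors hp).two_le
  have h2 : ∏ p ∈ (2 ^ n - 1).primeFactors, p ≤ 2 ^ n - 1 := Nat.le_of_dvd hpos (Nat.prod_primeFactors_dvd _)
  have h3 : 2 ^ (2 ^ n - 1).primeFactors.card < 2 ^ n := by
    have : 0 < 2 ^ n := by positivity
    omega
  exact ((Nat.pow_lt_pow_iff_right (by norm_num)).1 h3).le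

/-- sum of `d/q` over a set of primes `q ≡ 1 mod d` -/
lemma class_sum (n d : ℕ) (hn : 0 < n) (hd : 0 < d) (C : Finset ℕ) (hC : ∀ q ∈ C, 1 < q ∧ d ∣ q - 1)
    (hcard : C.card ≤ n) : ∑ q ∈ C, (d : ℝ) / q ≤ 2 + Real.log n := by
  classical
  have hn0 : (0 : ℝ) < n := by exact_mod_cast hn
  -- compare with 1/j
  have h1 : ∀ q ∈ C, (d : ℝ) / q ≤ 1 / (((q - 1) / d : ℕ) : ℝ) := by
    intro q hq
    obtain ⟨hq1, j, hj⟩ := hC q hq
    have hj0 : 0 < j := by
      rcases Nat.eq_zero_or_pos j with h | h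
      · subst h; omega
      · exact h
    rw [hj, Nat.mul_div_cancel_left _ hd]
    have hqR : (q : ℝ) = d * j + 1 := by
      have : q = d * j + 1 := by omega
      exact_mod_cast this
    have hjR : (0 : ℝ) < j := by exact_mod_cast hj0
    have hdR : (0 : ℝ) < d := by exact_mod_cast hd
    rw [hqR, div_le_div_iff₀ (by positivity) hjR]
    linarith
  refine (sum_le_sum h1).trans ?_
  set g : ℕ → ℕ := fun q => (q - 1) / d with hg
  have hinj : Set.InjOn g C := by
    intro a ha b hb hab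
    obtain ⟨ha1, j, hj⟩ := hC a ha
    obtain ⟨hb1, j', hj'⟩ := hC b hb
    rw [hg] at hab
    beta_reduce at hab
    rw [hj, hj', Nat.mul_div_cancel_left _ hd, Nat.mul_div_cancel_left _ hd] at hab
    rw [hab] at hj
    omega
  have hpos : ∀ q ∈ C, 0 < g q := by
    intro q hq
    obtain ⟨hq1, j, hj⟩ := hC q hq
    rw [hg]
    beta_reduce
    rw [hj, Nat.mul_div_cancel_left _ hd]
    rcases Nat.eq_zero_or_pos j with h | h
    · subst h; omega
    · exact h
  have e1 : ∑ q ∈ C, 1 / (((q - 1) / d : ℕ) : ℝ) = ∑ j ∈ C.image g, 1 / (j : ℝ) := by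
    rw [sum_image hinj]
  rw [e1, ← sum_filter_add_sum_filter_not (C.image g) (fun j => j ≤ n)]
  have h2 : ∑ j ∈ (C.image g).filter (fun j => j ≤ n), 1 / (j : ℝ) ≤ 1 + Real.log n := by
    have h3 : ∑ j ∈ (C.image g).filter (fun j => j ≤ n), 1 / (j : ℝ) ≤ ∑ j ∈ Icc 1 n, 1 / (j : ℝ) := by
      apply sum_le_sum_of_subset_of_nonneg
      · intro j hj
        rw [mem_filter, mem_image] at hj
        obtain ⟨⟨q, hq, rfl⟩, h⟩ := hj
        exact mem_Icc.2 ⟨hpos q hq, h⟩
      · intro _ _ _; positivity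
    have h4 := harmonic_le_one_add_log n
    have h5 : ((harmonic n : ℚ) : ℝ) = ∑ j ∈ Icc 1 n, 1 / (j : ℝ) := by
      rw [harmonic_eq_sum_Icc]
      push_cast
      apply sum_congr rfl
      intro j _
      rw [one_div]
    rw [h5] at h4
    linarith
  have h3 : ∑ j ∈ (C.image g).filter (fun j => ¬ j ≤ n), 1 / (j : ℝ) ≤ 1 := by
    calc ∑ j ∈ (C.image g).filter (fun j => ¬ j ≤ n), 1 / (j : ℝ)
        ≤ ∑ j ∈ (C.image g).filter (fun j => ¬ j ≤ n), 1 / (n : ℝ) := by
          apply sum_le_sum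
          intro j hj
          rw [mem_filter] at hj
          apply one_div_le_one_div_of_le hn0
          have : n ≤ j := by omega
          exact_mod_cast this
      _ = ((C.image g).filter (fun j => ¬ j ≤ n)).card * (1 / (n : ℝ)) := by rw [sum_const, nsmul_eq_mul]
      _ ≤ n * (1 / (n : ℝ)) := by
          apply mul_le_mul_of_nonneg_right _ (by positivity)
          have : ((C.image g).filter (fun j => ¬ j ≤ n)).card ≤ n :=
            (card_le_card (filter_subset _ _)).trans (card_image_le.trans hcard)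
          exact_mod_cast this
      _ = 1 := by field_simp
  linarith

/-- the main finite bound -/
theorem K_bound (n : ℕ) (hn : 2 ≤ n) (S : ℝ) (hS : S = n.divisors.card * (2 + Real.log n))
    (r : ℕ) (hr : Odd r) (hrS : 5 * S + 1 ≤ r) (X : ℕ)
    (hX : 2 * Real.exp (2 * S) * (3 * ((n : ℝ) ^ 2) ^ r + 2) ≤ X) :
    ∃ k : ℕ, 2 ≤ k ∧ Nat.Coprime (k ^ n - 1) (2 ^ n - 1) ∧ k ≤ (n + 1) ^ n.divisors.card * X := by
  classical
  set N := 2 ^ n - 1 with hN
  have hN1 : 1 < N := by
    have : 2 ^ 2 ≤ 2 ^ n := Nat.pow_le_pow_right (by norm_num) hn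
    omega
  set Q0 := N.primeFactors.filter (fun q => (q - 1) ∣ n) with hQ0
  set Q := N.primeFactors.filter (fun q => ¬ (q - 1) ∣ n) with hQ
  set k0 := ∏ q ∈ Q0, q with hk0
  have hk0pos : 0 < k0 := prod_pos (fun q hq => (Nat.prime_of_mem_primeFactors (mem_filter.1 hq).1).pos)
  have hQprime : ∀ q ∈ Q, q.Prime := fun q hq => Nat.prime_of_mem_primeFactors (mem_filter.1 hq).1
  have hndvd : ∀ q ∈ Q, ¬ q ∣ k0 := by
    intro q hq h
    have hqp := hQprime q hq
    rw [hk0, hqp.prime.dvd_finsetProd_iff] at h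
    obtain ⟨p, hp, hqp'⟩ := h
    have hpp := Nat.prime_of_mem_primeFactors (mem_filter.1 hp).1
    have e := (Nat.prime_dvd_prime_iff_eq hqp hpp).1 hqp'
    rw [e] at hq
    exact (mem_filter.1 hq).2 (mem_filter.1 hp).2
  have hcardOm : ∀ q ∈ Q, (Om n k0 q).card ≤ Nat.gcd n (q - 1) := fun q hq =>
    card_Om n k0 q (hQprime q hq) (by omega) (hndvd q hq)
  have hhalf : ∀ q ∈ Q, 2 * (Om n k0 q).card ≤ q := by
    intro q hq
    have h1 := hcardOm q hq
    have hqp := hQprime q hq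
    have h2 : Nat.gcd n (q - 1) ∣ q - 1 := Nat.gcd_dvd_right _ _
    have h3 : Nat.gcd n (q - 1) ≠ q - 1 := by
      intro h
      apply (mem_filter.1 hq).2
      rw [← h]
      exact Nat.gcd_dvd_left _ _
    obtain ⟨j, hj⟩ := h2
    have hq2 := hqp.two_le
    have hj2 : 2 ≤ j := by
      rcases Nat.lt_or_ge j 2 with h | h
      · interval_cases j
        · omega
        · rw [mul_one] at hj; exact absurd hj.symm h3
      · exact h
    have h4 : 2 * Nat.gcd n (q - 1) ≤ q - 1 := by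
      calc 2 * Nat.gcd n (q - 1) = Nat.gcd n (q - 1) * 2 := mul_comm _ _
        _ ≤ Nat.gcd n (q - 1) * j := Nat.mul_le_mul_left _ hj2
        _ = q - 1 := hj.symm
    omega
  have hQcard : Q.card ≤ n := (card_le_card (filter_subset _ _)).trans (omega_le n)
  have hSum : ∑ q ∈ Q, ((Om n k0 q).card : ℝ) / q ≤ S := by
    have hmaps : ∀ q ∈ Q, Nat.gcd n (q - 1) ∈ n.divisors := fun q _ =>
      Nat.mem_divisors.2 ⟨Nat.gcd_dvd_left _ _, by omega⟩
    rw [hS, ← nsmul_eq_mul, ← sum_const, ← sum_fiberwise_of_maps_to hmaps]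
    apply sum_le_sum
    intro d hd
    have hd0 : 0 < d := Nat.pos_of_mem_divisors hd
    refine le_trans ?_ (class_sum n d (by omega) hd0 (Q.filter (fun q => Nat.gcd n (q - 1) = d)) ?_ ?_)
    · apply sum_le_sum
      intro q hq
      rw [mem_filter] at hq
      apply div_le_div_of_nonneg_right _ (by positivity)
      have := hcardOm q hq.1
      rw [hq.2] at this
      exact_mod_cast this
    · intro q hq
      rw [mem_filter] at hq
      refine ⟨(hQprime q hq.1).one_lt, ?_⟩
      rw [← hq.2]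
      exact Nat.gcd_dvd_right _ _
    · exact (card_le_card (filter_subset _ _)).trans hQcard
  have hT : ∑ q ∈ Q, ((Om n k0 q).card : ℝ) ≤ (n : ℝ) ^ 2 := by
    calc ∑ q ∈ Q, ((Om n k0 q).card : ℝ) ≤ ∑ q ∈ Q, (n : ℝ) := by
          apply sum_le_sum
          intro q hq
          have h1 := hcardOm q hq
          have h2 : Nat.gcd n (q - 1) ≤ n := Nat.gcd_le_left _ (by omega)
          exact_mod_cast h1.trans h2
      _ = Q.card * n := by rw [sum_const, nsmul_eq_mul]
      _ ≤ n * n := by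
          apply mul_le_mul_of_nonneg_right _ (by positivity)
          exact_mod_cast hQcard
      _ = _ := by ring
  have hT1 : (1 : ℝ) ≤ (n : ℝ) ^ 2 := by
    have : (1 : ℝ) ≤ n := by exact_mod_cast (by omega : 1 ≤ n)
    exact one_le_pow₀ this
  obtain ⟨m, hm1, hmX, hm⟩ := exists_survivor Q hQprime (Om n k0) (fun q _ => Om_sub n k0 q) hhalf S
    ((n : ℝ) ^ 2) hSum hT1 hT r hr hrS X hX
  have hsurv : ∀ q ∈ Q, ((k0 * m : ℕ) : ZMod q) ^ n ≠ 1 := by
    intro q hq h
    exact hm q hq ((mem_Om n k0 q m (hQprime q hq).pos).2 h)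
  have hkpos : 0 < k0 * m := Nat.mul_pos hk0pos hm1
  have hkey : ∀ q : ℕ, q.Prime → q ∣ N → ¬ q ∣ (k0 * m) ^ n - 1 := by
    intro q hq hqN hdiv
    have hmem : q ∈ N.primeFactors := Nat.mem_primeFactors.2 ⟨hq, hqN, by omega⟩
    have hpow1 : 1 ≤ (k0 * m) ^ n := Nat.one_le_pow _ _ hkpos
    by_cases hqn : (q - 1) ∣ n
    · have h1 : q ∈ Q0 := mem_filter.2 ⟨hmem, hqn⟩
      have h2 : q ∣ k0 := dvd_prod_of_mem _ h1
      have h3 : q ∣ (k0 * m) ^ n := (h2.mul_right m).trans (dvd_pow_self _ (by omega))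
      have h4 : q ∣ 1 := by
        have := (Nat.dvd_sub_iff_right hpow1 h3).1 hdiv
        exact this
      exact hq.one_lt.ne' (Nat.dvd_one.1 h4)
    · have h1 : q ∈ Q := mem_filter.2 ⟨hmem, hqn⟩
      apply hsurv q h1
      have h2 : (((k0 * m) ^ n - 1 : ℕ) : ZMod q) = 0 := (ZMod.natCast_eq_zero_iff _ _).2 hdiv
      rw [Nat.cast_sub hpow1] at h2
      push_cast at h2
      push_cast
      exact sub_eq_zero.1 h2
  refine ⟨k0 * m, ?_, ?_, ?_⟩
  · by_contra h
    have hk1 : k0 * m = 1 := by omega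
    obtain ⟨q, hq, hqN⟩ := Nat.exists_prime_and_dvd (show N ≠ 1 by omega)
    apply hkey q hq hqN
    rw [hk1]
    simp
  · apply Nat.coprime_of_dvd
    intro q hq h1 h2
    exact hkey q hq h2 h1
  · apply Nat.mul_le_mul _ hmX.le
    have hQ0card : Q0.card ≤ n.divisors.card := by
      apply card_le_card_of_injOn (fun q => q - 1)
      · intro q hq
        rw [mem_coe, hQ0, mem_filter] at hq
        rw [mem_coe, Nat.mem_divisors]
        exact ⟨hq.2, by omega⟩
      · intro a ha b hb hab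
        rw [mem_coe, hQ0, mem_filter] at ha hb
        have h1 := (Nat.prime_of_mem_primeFactors ha.1).two_le
        have h2 := (Nat.prime_of_mem_primeFactors hb.1).two_le
        beta_reduce at hab
        omega
    calc k0 ≤ ∏ q ∈ Q0, (n + 1) := by
          apply prod_le_prod'
          intro q hq
          rw [hQ0, mem_filter] at hq
          have := Nat.le_of_dvd (by omega) hq.2
          omega
      _ = (n + 1) ^ Q0.card := by rw [prod_const]
      _ ≤ _ := Nat.pow_le_pow_right (by omega) hQ0card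

end Pool.Agent.H25.KBound
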