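import Mathlib

set_option autoImplicit false

namespace Pool.Agent.H25.PairCount

open Finset

lemma card_filter_mul {m n : ℕ} (hmn : Nat.Coprime m n) (hm : 0 < m) (hn : 0 < n)
    (A B : ℕ → Prop) [DecidablePred A] [DecidablePred B]
    (hA : ∀ x, A (x % m) ↔ A x) (hB : ∀ x, B (x % n) ↔ B x) :
    ((range (m * n)).filter (fun x => A x ∧ B x)).card =
      ((range m).filter A).card * ((range n).filter B).card := by
  rw [← card_product]
  apply card_bij (fun x _ => (x % m, x % n))
  · intro x hx
    simp only [mem_filter, mem_range, mem_product] at hx ⊢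
    exact ⟨⟨Nat.mod_lt _ hm, (hA x).2 hx.2.1⟩, ⟨Nat.mod_lt _ hn, (hB x).2 hx.2.2⟩⟩
  · intro x hx y hy hxy
    simp only [mem_filter, mem_range, Prod.mk.injEq] at hx hy hxy
    have h := (Nat.modEq_and_modEq_iff_modEq_mul hmn).1 ⟨hxy.1, hxy.2⟩
    exact Nat.ModEq.eq_of_lt_of_lt h hx.1 hy.1
  · rintro ⟨u, v⟩ huv
    simp only [mem_filter, mem_range, mem_product] at huv
    obtain ⟨⟨hu, hAu⟩, ⟨hv, hBv⟩⟩ := huv
    have hk := (Nat.chineseRemainder hmn u v).2
    have hlt := Nat.chineseRemainder_lt_mul hmn u v hm.ne' hn.ne'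
    set k := (Nat.chineseRemainder hmn u v : ℕ)
    have e1 : k % m = u := by
      have := hk.1
      unfold Nat.ModEq at this
      rw [this, Nat.mod_eq_of_lt hu]
    have e2 : k % n = v := by
      have := hk.2
      unfold Nat.ModEq at this
      rw [this, Nat.mod_eq_of_lt hv]
    refine ⟨k, ?_, ?_⟩
    · simp only [mem_filter, mem_range]
      refine ⟨hlt, ?_, ?_⟩
      · rw [← hA k, e1]; exact hAu
      · rw [← hB k, e2]; exact hBv
    · simp only [e1, e2]

/-- number of residues killed by `p` -/
def rho (d p : ℕ) : ℕ := if p ∣ d then 1 else 2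

lemma card_prime (d p : ℕ) (hp : p.Prime) :
    ((range p).filter (fun x => p ∣ x * (x + d))).card = rho d p := by
  unfold rho
  split_ifs with h
  · have : (range p).filter (fun x => p ∣ x * (x + d)) = {0} := by
      ext x
      simp only [mem_filter, mem_range, mem_singleton]
      constructor
      · rintro ⟨hx, hd⟩
        rcases (Nat.Prime.dvd_mul hp).1 hd with h1 | h1
        · exact Nat.eq_zero_of_dvd_of_lt h1 hx
        · have : p ∣ x := (Nat.dvd_add_left h).1 h1
          exact Nat.eq_zero_of_dvd_of_lt this hx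
      · rintro rfl
        exact ⟨hp.pos, by simp⟩
    rw [this, card_singleton]
  · have hdm : 0 < d % p := Nat.pos_of_ne_zero (fun h0 => h (Nat.dvd_of_mod_eq_zero h0))
    have hdl : d % p < p := Nat.mod_lt _ hp.pos
    have : (range p).filter (fun x => p ∣ x * (x + d)) = {0, p - d % p} := by
      ext x
      simp only [mem_filter, mem_range, mem_insert, mem_singleton]
      constructor
      · rintro ⟨hx, hd⟩
        rcases (Nat.Prime.dvd_mul hp).1 hd with h1 | h1
        · left; exact Nat.eq_zero_of_dvd_of_lt h1 hx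
        · right
          have h2 : p ∣ x + d % p := by
            have e : x + d = x + d % p + p * (d / p) := by
              have := Nat.div_add_mod d p; omega
            rw [e] at h1
            exact (Nat.dvd_add_left (Dvd.intro _ rfl)).1 h1
          obtain ⟨k, hk⟩ := h2
          have hk1 : k = 1 := by
            have h3 : 0 < k := by
              rcases Nat.eq_zero_or_pos k with h0 | h0
              · rw [h0] at hk; omega
              · exact h0
            have h4 : k < 2 := by
              by_contra hc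
              push Not at hc
              have : p * 2 ≤ p * k := Nat.mul_le_mul_left p hc
              omega
            omega
          rw [hk1] at hk
          omega
      · rintro (rfl | rfl)
        · exact ⟨hp.pos, by simp⟩
        · refine ⟨by omega, ?_⟩
          apply Dvd.dvd.mul_left
          have e : p - d % p + d = p * (d / p + 1) := by
            have := Nat.div_add_mod d p
            rw [mul_add, mul_one]; omega
          rw [e]
          exact Dvd.intro _ rfl
    rw [this, card_pair]
    omega

lemma dvd_mod_iff (d p e x : ℕ) (hpe : p ∣ e) :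
    p ∣ (x % e) * (x % e + d) ↔ p ∣ x * (x + d) := by
  have h1 : x % e ≡ x [MOD p] := by
    have := Nat.mod_modEq x e
    exact this.of_dvd hpe
  have h2 : (x % e) * (x % e + d) ≡ x * (x + d) [MOD p] := h1.mul (h1.add_right d)
  constructor
  · intro h
    exact (Nat.modEq_zero_iff_dvd).1 (h2.symm.trans ((Nat.modEq_zero_iff_dvd).2 h))
  · intro h
    exact (Nat.modEq_zero_iff_dvd).1 (h2.trans ((Nat.modEq_zero_iff_dvd).2 h))

lemma card_all (d : ℕ) (s : Finset ℕ) (hs : ∀ p ∈ s, p.Prime) :
    ((range (∏ p ∈ s, p)).filter (fun x => ∀ p ∈ s, p ∣ x * (x + d))).card = ∏ p ∈ s, rho d p := by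
  induction s using Finset.induction_on with
  | empty => simp
  | insert q s hq ih =>
    have hs' : ∀ p ∈ s, p.Prime := fun p hp => hs p (mem_insert_of_mem hp)
    have hqp : q.Prime := hs q (mem_insert_self q s)
    rw [prod_insert hq, prod_insert hq, ← ih hs', ← card_prime d q hqp]
    rw [← card_filter_mul]
    · congr 1
      ext x
      simp only [mem_filter, mem_range, mem_insert, forall_eq_or_imp]
    · apply Nat.Coprime.prod_right
      intro p hp
      rw [Nat.coprime_primes hqp (hs' p hp)]
      rintro rfl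
      exact hq hp
    · exact hqp.pos
    · exact prod_pos (fun p hp => (hs' p hp).pos)
    · intro x
      exact dvd_mod_iff d q q x (dvd_refl q)
    · intro x
      constructor
      · intro h p hp
        exact (dvd_mod_iff d p _ x (dvd_prod_of_mem _ hp)).1 (h p hp)
      · intro h p hp
        exact (dvd_mod_iff d p _ x (dvd_prod_of_mem _ hp)).2 (h p hp)

lemma block (Q : ℕ → Prop) [DecidablePred Q] (e : ℕ) (hQ : Function.Periodic Q e) (a k : ℕ) :
    ((Ico a (a + e * k)).filter Q).card = k * ((range e).filter Q).card := by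
  induction k with
  | zero => simp
  | succ k ih =>
    have h1 : Ico a (a + e * (k + 1)) = Ico a (a + e * k) ∪ Ico (a + e * k) (a + e * k + e) := by
      ext x; simp only [mem_Ico, mem_union, mul_add, mul_one]; omega
    have h2 : Disjoint (Ico a (a + e * k)) (Ico (a + e * k) (a + e * k + e)) := by
      rw [disjoint_left]; intro x; simp only [mem_Ico]; omega
    rw [h1, filter_union, card_union_of_disjoint (disjoint_filter_filter h2), ih,
      Nat.filter_Ico_card_eq_of_periodic _ _ Q hQ, Nat.count_eq_card_filter_range]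
    ring

lemma interval_count (Q : ℕ → Prop) [DecidablePred Q] (e : ℕ) (he : 0 < e)
    (hQ : Function.Periodic Q e) (a X : ℕ) :
    |(((Ico a (a + X)).filter Q).card : ℝ) - X * (((range e).filter Q).card / e)| ≤
      ((range e).filter Q).card := by
  set c := ((range e).filter Q).card with hc
  have hX : X = e * (X / e) + X % e := (Nat.div_add_mod X e).symm
  have hm : X % e < e := Nat.mod_lt _ he
  have h1 : (X / e) * c ≤ ((Ico a (a + X)).filter Q).card := by
    rw [hc, ← block Q e hQ a (X / e)]
    apply card_le_card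
    apply filter_subset_filter
    apply Ico_subset_Ico_right
    omega
  have h2 : ((Ico a (a + X)).filter Q).card ≤ (X / e + 1) * c := by
    rw [hc, ← block Q e hQ a (X / e + 1)]
    apply card_le_card
    apply filter_subset_filter
    apply Ico_subset_Ico_right
    rw [mul_add, mul_one]; omega
  have h1' : ((X / e : ℕ) : ℝ) * c ≤ (((Ico a (a + X)).filter Q).card : ℝ) := by exact_mod_cast h1
  have h2' : (((Ico a (a + X)).filter Q).card : ℝ) ≤ (((X / e : ℕ) : ℝ) + 1) * c := by
    exact_mod_cast h2
  have he' : (0 : ℝ) < e := by exact_mod_cast he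
  have h3 : ((X / e : ℕ) : ℝ) ≤ (X : ℝ) / e := Nat.cast_div_le
  have h4 : (X : ℝ) / e ≤ ((X / e : ℕ) : ℝ) + 1 := by
    rw [div_le_iff₀ he']
    have : X ≤ (X / e + 1) * e := by
      have : (X / e + 1) * e = e * (X / e) + e := by ring
      omega
    exact_mod_cast this
  have hc0 : (0 : ℝ) ≤ c := Nat.cast_nonneg c
  have e1 : (X : ℝ) * (c / e) = (X / e) * c := by ring
  rw [e1, abs_le]
  constructor
  · nlinarith [mul_le_mul_of_nonneg_right h4 hc0]
  · nlinarith [mul_le_mul_of_nonneg_right h3 hc0]

lemma rho_le (d p : ℕ) : rho d p ≤ 2 := by unfold rho; split_ifs <;> norm_num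

lemma one_le_rho (d p : ℕ) : 1 ≤ rho d p := by unfold rho; split_ifs <;> norm_num

/-- the density `g p = rho p / p` -/
noncomputable def g (d p : ℕ) : ℝ := (rho d p : ℝ) / p

lemma pair_count (d : ℕ) (s : Finset ℕ) (hs : ∀ p ∈ s, p.Prime) (a X : ℕ) :
    |(((Ico a (a + X)).filter (fun n => ∀ p ∈ s, p ∣ n * (n + d))).card : ℝ) -
      X * ∏ p ∈ s, g d p| ≤ 2 ^ s.card := by
  have he : 0 < ∏ p ∈ s, p := prod_pos (fun p hp => (hs p hp).pos)
  have hper : Function.Periodic (fun n => ∀ p ∈ s, p ∣ n * (n + d)) (∏ p ∈ s, p) := by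
    intro x
    simp only [eq_iff_iff]
    constructor
    · intro h p hp
      have := (dvd_mod_iff d p (∏ p ∈ s, p) (x + ∏ p ∈ s, p) (dvd_prod_of_mem _ hp)).2 (h p hp)
      rw [Nat.add_mod_right] at this
      exact (dvd_mod_iff d p (∏ p ∈ s, p) x (dvd_prod_of_mem _ hp)).1 this
    · intro h p hp
      have := (dvd_mod_iff d p (∏ p ∈ s, p) x (dvd_prod_of_mem _ hp)).2 (h p hp)
      apply (dvd_mod_iff d p (∏ p ∈ s, p) (x + ∏ p ∈ s, p) (dvd_prod_of_mem _ hp)).1
      rw [Nat.add_mod_right]
      exact this
  have h := interval_count _ _ he hper a X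
  rw [card_all d s hs] at h
  have e1 : ((∏ p ∈ s, rho d p : ℕ) : ℝ) / ((∏ p ∈ s, p : ℕ) : ℝ) = ∏ p ∈ s, g d p := by
    unfold g
    push_cast
    rw [prod_div_distrib]
  rw [e1] at h
  refine h.trans ?_
  have : ∏ p ∈ s, rho d p ≤ 2 ^ s.card := by
    rw [← prod_const]
    exact prod_le_prod' (fun p _ => rho_le d p)
  exact_mod_cast this

end Pool.Agent.H25.PairCount
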