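import Mathlib

set_option autoImplicit false

namespace Pool.Agent.H25.Selberg

open Finset

variable {ι : Type*} [DecidableEq ι]

/-- product of `f` over `s` -/
noncomputable def pr (f : ι → ℝ) (s : Finset ι) : ℝ := ∏ i ∈ s, f i

/-- `h = g / (1 - g)` -/
noncomputable def hh (g : ι → ℝ) (i : ι) : ℝ := g i / (1 - g i)

noncomputable def LL (g : ι → ℝ) (T : Finset (Finset ι)) : ℝ := ∑ t ∈ T, pr (hh g) t

noncomputable def lam (g : ι → ℝ) (T : Finset (Finset ι)) (s : Finset ι) : ℝ :=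
  (-1) ^ (s.card) / (pr g s * LL g T) * ∑ t ∈ T.filter (fun t => s ⊆ t), pr (hh g) t

lemma sum_Icc_neg_one (k t : Finset ι) :
    ∑ s ∈ t.powerset.filter (fun s => k ⊆ s), (-1 : ℝ) ^ s.card = if k = t then (-1) ^ k.card else 0 := by
  by_cases hkt : k ⊆ t
  · have h1 : t.powerset.filter (fun s => k ⊆ s) = (t \ k).powerset.image (k ∪ ·) := by
      rw [← Icc_eq_image_powerset hkt]
      ext s
      simp only [mem_filter, mem_powerset, mem_Icc, le_eq_subset]
      tauto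
    rw [h1, sum_image]
    · have h2 : ∀ s ∈ (t \ k).powerset, (-1 : ℝ) ^ (k ∪ s).card = (-1) ^ k.card * (-1) ^ s.card := by
        intro s hs
        rw [mem_powerset] at hs
        rw [card_union_of_disjoint, pow_add]
        rw [disjoint_left]
        intro a ha ha'
        exact (mem_sdiff.1 (hs ha')).2 ha
      rw [sum_congr rfl h2, ← mul_sum]
      have h3 : ∑ s ∈ (t \ k).powerset, (-1 : ℝ) ^ s.card = if t \ k = ∅ then 1 else 0 := by
        have := sum_powerset_neg_one_pow_card (x := t \ k)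
        have h4 : ((∑ m ∈ (t \ k).powerset, (-1 : ℤ) ^ m.card : ℤ) : ℝ) = ((if t \ k = ∅ then 1 else 0 : ℤ) : ℝ) := by
          rw [this]
        push_cast at h4
        simpa using h4
      rw [h3]
      by_cases hk : k = t
      · subst hk; simp
      · have : t \ k ≠ ∅ := by
          intro h
          rw [sdiff_eq_empty_iff_subset] at h
          exact hk (subset_antisymm hkt h)
        simp [hk, this]
    · intro a ha b hb hab
      simp only [coe_powerset, Set.mem_preimage, Set.mem_powerset_iff, coe_subset] at ha hb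
      have e : ∀ c, c ⊆ t \ k → (k ∪ c) \ k = c := by
        intro c hc
        ext x
        simp only [mem_sdiff, mem_union]
        constructor
        · rintro ⟨h1 | h1, h2⟩
          · exact absurd h1 h2
          · exact h1
        · intro hx
          exact ⟨Or.inr hx, (mem_sdiff.1 (hc hx)).2⟩
      have := congrArg (· \ k) hab
      simp only at this
      rw [e a (by simpa using ha), e b (by simpa using hb)] at this
      exact this
  · have h1 : t.powerset.filter (fun s => k ⊆ s) = ∅ := by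
      rw [filter_eq_empty_iff]
      intro s hs hks
      rw [mem_powerset] at hs
      exact hkt (hks.trans hs)
    rw [h1]
    have : k ≠ t := fun h => hkt (h ▸ Subset.refl _)
    simp [this]

variable {g : ι → ℝ} {P : Finset ι} {T : Finset (Finset ι)}

lemma pr_pos {f : ι → ℝ} {s : Finset ι} (h : ∀ i ∈ s, 0 < f i) : 0 < pr f s := prod_pos h

lemma hh_pos {i : ι} (h : 0 < g i ∧ g i < 1) : 0 < hh g i := div_pos h.1 (by linarith [h.2])

lemma LL_pos (hg : ∀ i ∈ P, 0 < g i ∧ g i < 1) (hT : T ⊆ P.powerset) (h0 : ∅ ∈ T) : 0 < LL g T := by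
  unfold LL
  apply sum_pos
  · intro t ht
    apply pr_pos
    intro i hi
    exact hh_pos (hg i ((mem_powerset.1 (hT ht)) hi))
  · exact ⟨∅, h0⟩

lemma lam_empty (hg : ∀ i ∈ P, 0 < g i ∧ g i < 1) (hT : T ⊆ P.powerset) (h0 : ∅ ∈ T) :
    lam g T ∅ = 1 := by
  have hL := LL_pos hg hT h0
  unfold lam
  have : T.filter (fun t => ∅ ⊆ t) = T := by
    apply filter_true_of_mem; intro t _; exact empty_subset t
  rw [this]
  simp only [card_empty, pow_zero, pr, prod_empty, one_mul]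
  change 1 / LL g T * LL g T = 1
  field_simp

/-- the diagonal variables -/
lemma y_eq (hg : ∀ i ∈ P, 0 < g i ∧ g i < 1) (hT : T ⊆ P.powerset) (k : Finset ι) :
    ∑ s ∈ P.powerset.filter (fun s => k ⊆ s), lam g T s * pr g s =
      if k ∈ T then (-1) ^ k.card * pr (hh g) k / LL g T else 0 := by
  have h1 : ∀ s ∈ P.powerset.filter (fun s => k ⊆ s), lam g T s * pr g s =
      ∑ t ∈ T, if s ⊆ t then (-1) ^ s.card * (pr (hh g) t / LL g T) else 0 := by
    intro s hs
    simp only [mem_filter, mem_powerset] at hs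
    have hp : pr g s ≠ 0 := (pr_pos (fun i hi => (hg i (hs.1 hi)).1)).ne'
    rw [← sum_filter]
    unfold lam
    rw [div_mul_eq_mul_div, div_mul_eq_mul_div, mul_comm (pr g s) (LL g T), mul_div_mul_right _ _ hp,
      mul_div_assoc, sum_div, mul_sum]
  rw [sum_congr rfl h1, sum_comm]
  have h2 : ∀ t ∈ T, (∑ s ∈ P.powerset.filter (fun s => k ⊆ s),
      if s ⊆ t then (-1 : ℝ) ^ s.card * (pr (hh g) t / LL g T) else 0) =
      (if k = t then (-1) ^ k.card else 0) * (pr (hh g) t / LL g T) := by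
    intro t ht
    rw [← sum_Icc_neg_one k t, sum_mul, ← sum_filter]
    apply sum_congr _ (fun _ _ => rfl)
    ext s
    simp only [mem_filter, mem_powerset]
    constructor
    · rintro ⟨⟨_, h2⟩, h3⟩; exact ⟨h3, h2⟩
    · rintro ⟨h3, h2⟩; exact ⟨⟨h3.trans (mem_powerset.1 (hT ht)), h2⟩, h3⟩
  rw [sum_congr rfl h2]
  simp only [ite_mul, zero_mul]
  rw [sum_ite_eq]
  split_ifs
  · ring
  · rfl

lemma inv_pr (u : Finset ι) (hg : ∀ i ∈ u, 0 < g i ∧ g i < 1) :
    (pr g u)⁻¹ = ∑ k ∈ u.powerset, (pr (hh g) k)⁻¹ := by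
  have h1 : (pr g u)⁻¹ = ∏ i ∈ u, (1 + (hh g i)⁻¹) := by
    unfold pr
    rw [← prod_inv_distrib]
    apply prod_congr rfl
    intro i hi
    have := hg i hi
    unfold hh
    have h1 : g i ≠ 0 := this.1.ne'
    have h2 : 1 - g i ≠ 0 := by linarith [this.2]
    field_simp
    ring
  rw [h1, prod_one_add]
  apply sum_congr rfl
  intro k _
  unfold pr
  rw [prod_inv_distrib]

/-- the quadratic form at the Selberg weights equals `1 / L` -/
lemma quad (hg : ∀ i ∈ P, 0 < g i ∧ g i < 1) (hT : T ⊆ P.powerset) (h0 : ∅ ∈ T) :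
    ∑ s₁ ∈ P.powerset, ∑ s₂ ∈ P.powerset, lam g T s₁ * lam g T s₂ * pr g (s₁ ∪ s₂) = 1 / LL g T := by
  have hL := LL_pos hg hT h0
  have h1 : ∀ s₁ ∈ P.powerset, ∀ s₂ ∈ P.powerset, lam g T s₁ * lam g T s₂ * pr g (s₁ ∪ s₂) =
      ∑ k ∈ P.powerset, (if k ⊆ s₁ then lam g T s₁ * pr g s₁ else 0) *
        (if k ⊆ s₂ then lam g T s₂ * pr g s₂ else 0) * (pr (hh g) k)⁻¹ := by
    intro s₁ hs₁ s₂ hs₂
    rw [mem_powerset] at hs₁ hs₂
    have e1 : pr g (s₁ ∪ s₂) * pr g (s₁ ∩ s₂) = pr g s₁ * pr g s₂ := prod_union_inter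
    have hp : pr g (s₁ ∩ s₂) ≠ 0 :=
      (pr_pos (fun i hi => (hg i (hs₁ (mem_inter.1 hi).1)).1)).ne'
    have e2 : pr g (s₁ ∪ s₂) = pr g s₁ * pr g s₂ * (pr g (s₁ ∩ s₂))⁻¹ := by
      rw [← e1]; field_simp
    rw [e2, inv_pr (s₁ ∩ s₂) (fun i hi => hg i (hs₁ (mem_inter.1 hi).1))]
    have e3 : (s₁ ∩ s₂).powerset = P.powerset.filter (fun k => k ⊆ s₁ ∧ k ⊆ s₂) := by
      ext k
      simp only [mem_powerset, mem_filter, subset_inter_iff]
      constructor
      · rintro ⟨a, b⟩; exact ⟨a.trans hs₁, a, b⟩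
      · rintro ⟨_, a, b⟩; exact ⟨a, b⟩
    rw [e3, sum_filter, mul_sum, mul_sum]
    apply sum_congr rfl
    intro k _
    by_cases ha : k ⊆ s₁ <;> by_cases hb : k ⊆ s₂ <;> simp [ha, hb] <;> ring
  have h2 : ∑ s₁ ∈ P.powerset, ∑ s₂ ∈ P.powerset, lam g T s₁ * lam g T s₂ * pr g (s₁ ∪ s₂) =
      ∑ k ∈ P.powerset, (∑ s ∈ P.powerset.filter (fun s => k ⊆ s), lam g T s * pr g s) ^ 2 *
        (pr (hh g) k)⁻¹ := by
    rw [sum_congr rfl (fun s₁ hs₁ => sum_congr rfl (fun s₂ hs₂ => h1 s₁ hs₁ s₂ hs₂))]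
    have : ∀ s₁ ∈ P.powerset, (∑ s₂ ∈ P.powerset, ∑ k ∈ P.powerset,
        (if k ⊆ s₁ then lam g T s₁ * pr g s₁ else 0) *
        (if k ⊆ s₂ then lam g T s₂ * pr g s₂ else 0) * (pr (hh g) k)⁻¹) =
        ∑ k ∈ P.powerset, ∑ s₂ ∈ P.powerset,
        (if k ⊆ s₁ then lam g T s₁ * pr g s₁ else 0) *
        (if k ⊆ s₂ then lam g T s₂ * pr g s₂ else 0) * (pr (hh g) k)⁻¹ := by
      intro s₁ _; exact sum_comm
    rw [sum_congr rfl this, sum_comm]
    apply sum_congr rfl
    intro k _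
    rw [sum_filter, sq, sum_mul_sum, sum_mul]
    apply sum_congr rfl
    intro s₁ _
    rw [sum_mul]
  rw [h2]
  have h3 : ∀ k ∈ P.powerset, (∑ s ∈ P.powerset.filter (fun s => k ⊆ s), lam g T s * pr g s) ^ 2 *
        (pr (hh g) k)⁻¹ = if k ∈ T then pr (hh g) k / (LL g T) ^ 2 else 0 := by
    intro k hk
    rw [mem_powerset] at hk
    rw [y_eq hg hT k]
    have hp : pr (hh g) k ≠ 0 := (pr_pos (fun i hi => hh_pos (hg i (hk hi)))).ne'
    split_ifs
    · rw [div_pow, mul_pow, ← pow_mul, mul_comm k.card 2, pow_mul]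
      norm_num
      field_simp
    · simp
  rw [sum_congr rfl h3, ← sum_filter]
  have h4 : P.powerset.filter (fun k => k ∈ T) = T := by
    ext k
    simp only [mem_filter]
    exact ⟨fun h => h.2, fun h => ⟨hT h, h⟩⟩
  rw [h4, ← sum_div]
  change LL g T / (LL g T) ^ 2 = 1 / LL g T
  field_simp

lemma lam_zero (hdown : ∀ t ∈ T, ∀ s, s ⊆ t → s ∈ T) (s : Finset ι) (hs : s ∉ T) : lam g T s = 0 := by
  unfold lam
  have : T.filter (fun t => s ⊆ t) = ∅ := by
    rw [filter_eq_empty_iff]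
    intro t ht hst
    exact hs (hdown t ht s hst)
  rw [this]; simp

lemma abs_lam (hg : ∀ i ∈ P, 0 < g i ∧ g i < 1) (hT : T ⊆ P.powerset) (h0 : ∅ ∈ T)
    (hdown : ∀ t ∈ T, ∀ s, s ⊆ t → s ∈ T) (s : Finset ι) (hs : s ⊆ P) (c : ℝ)
    (hc : ∀ i ∈ P, 1 / (1 - g i) ≤ c) : |lam g T s| ≤ c ^ s.card := by
  have hL := LL_pos hg hT h0
  have hgs : 0 < pr g s := pr_pos (fun i hi => (hg i (hs hi)).1)
  unfold lam
  have hsum : ∑ t ∈ T.filter (fun t => s ⊆ t), pr (hh g) t ≤ pr (hh g) s * LL g T := by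
    have e : ∑ t ∈ T.filter (fun t => s ⊆ t), pr (hh g) t =
        ∑ t ∈ (T.filter (fun t => s ⊆ t)).image (· \ s), pr (hh g) s * pr (hh g) t := by
      rw [sum_image]
      · apply sum_congr rfl
        intro t ht
        simp only [mem_filter] at ht
        unfold pr
        rw [mul_comm, prod_sdiff ht.2]
      · intro a ha b hb hab
        simp only [coe_filter, Set.mem_ofPred_eq] at ha hb
        simp only at hab
        rw [← sdiff_union_of_subset ha.2, ← sdiff_union_of_subset hb.2, hab]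
    rw [e, ← mul_sum]
    apply mul_le_mul_of_nonneg_left _ (pr_pos (fun i hi => hh_pos (hg i (hs hi)))).le
    apply sum_le_sum_of_subset_of_nonneg
    · intro t ht
      simp only [mem_image, mem_filter] at ht
      obtain ⟨u, ⟨hu, _⟩, rfl⟩ := ht
      exact hdown u hu _ sdiff_subset
    · intro t ht _
      exact (pr_pos (fun i hi => hh_pos (hg i ((mem_powerset.1 (hT ht)) hi)))).le
  have hsum0 : 0 ≤ ∑ t ∈ T.filter (fun t => s ⊆ t), pr (hh g) t := by
    apply sum_nonneg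
    intro t ht
    exact (pr_pos (fun i hi => hh_pos (hg i ((mem_powerset.1 (hT (mem_filter.1 ht).1)) hi)))).le
  rw [abs_mul, abs_div, abs_pow, abs_neg, abs_one, one_pow, abs_of_pos (mul_pos hgs hL),
    abs_of_nonneg hsum0]
  have h1 : 1 / (pr g s * LL g T) * ∑ t ∈ T.filter (fun t => s ⊆ t), pr (hh g) t ≤
      1 / (pr g s * LL g T) * (pr (hh g) s * LL g T) := by gcongr
  have h2 : 1 / (pr g s * LL g T) * (pr (hh g) s * LL g T) = ∏ i ∈ s, (1 / (1 - g i)) := by
    have e : ∏ i ∈ s, (1 / (1 - g i)) = pr (hh g) s / pr g s := by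
      unfold pr
      rw [← prod_div_distrib]
      apply prod_congr rfl
      intro i hi
      unfold hh
      have h1 : g i ≠ 0 := (hg i (hs hi)).1.ne'
      field_simp
    rw [e]
    field_simp
  have h3 : ∏ i ∈ s, (1 / (1 - g i)) ≤ ∏ _i ∈ s, c := by
    apply prod_le_prod
    · intro i hi
      have := (hg i (hs hi)).2
      apply div_nonneg zero_le_one (by linarith)
    · intro i hi
      exact hc i (hs hi)
  rw [prod_const] at h3
  linarith

/-- The Selberg upper bound sieve in set form. `J` is the set being sifted, `D n ⊆ P` the set of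
primes dividing `n`. -/
theorem selberg {α : Type*} (J : Finset α) (D : α → Finset ι) (hD : ∀ n ∈ J, D n ⊆ P)
    (hg : ∀ i ∈ P, 0 < g i ∧ g i < 1) (hT : T ⊆ P.powerset) (h0 : ∅ ∈ T)
    (hdown : ∀ t ∈ T, ∀ s, s ⊆ t → s ∈ T) (c : ℝ) (hc : ∀ i ∈ P, 1 / (1 - g i) ≤ c)
    (X κ : ℝ) (hκ : 1 ≤ κ)
    (hcount : ∀ s ⊆ P, |((J.filter (fun n => s ⊆ D n)).card : ℝ) - X * pr g s| ≤ κ ^ s.card) :
    ((J.filter (fun n => D n = ∅)).card : ℝ) ≤
      X / LL g T + (∑ s ∈ T, (c * κ) ^ s.card) ^ 2 := by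
  have hc1 : ∀ s ∈ T, |lam g T s| ≤ c ^ s.card := fun s hs =>
    abs_lam hg hT h0 hdown s (mem_powerset.1 (hT hs)) c hc
  -- step 1
  have h1 : ((J.filter (fun n => D n = ∅)).card : ℝ) ≤
      ∑ n ∈ J, (∑ s ∈ P.powerset, if s ⊆ D n then lam g T s else 0) ^ 2 := by
    rw [card_filter]
    push_cast
    apply sum_le_sum
    intro n _
    split_ifs with hn
    · rw [hn]
      have : ∑ s ∈ P.powerset, (if s ⊆ ∅ then lam g T s else 0) = lam g T ∅ := by
        rw [sum_eq_single ∅]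
        · simp
        · intro b _ hb
          rw [if_neg]
          intro hb'
          exact hb (subset_empty.1 hb')
        · intro hb
          exact absurd (empty_mem_powerset P) hb
      rw [this, lam_empty hg hT h0]
      norm_num
    · exact sq_nonneg _
  -- step 2: expand
  have h2 : ∑ n ∈ J, (∑ s ∈ P.powerset, if s ⊆ D n then lam g T s else 0) ^ 2 =
      ∑ s₁ ∈ P.powerset, ∑ s₂ ∈ P.powerset, lam g T s₁ * lam g T s₂ *
        ((J.filter (fun n => s₁ ∪ s₂ ⊆ D n)).card : ℝ) := by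
    simp_rw [sq, sum_mul_sum]
    rw [sum_comm]
    apply sum_congr rfl
    intro s₁ _
    rw [sum_comm]
    apply sum_congr rfl
    intro s₂ _
    rw [card_filter]
    push_cast
    rw [mul_sum]
    apply sum_congr rfl
    intro n _
    by_cases ha : s₁ ⊆ D n <;> by_cases hb : s₂ ⊆ D n <;> simp [ha, hb, union_subset_iff]
  rw [h2] at h1
  -- step 3: replace by main term
  have h3 : ∑ s₁ ∈ P.powerset, ∑ s₂ ∈ P.powerset, lam g T s₁ * lam g T s₂ *
        ((J.filter (fun n => s₁ ∪ s₂ ⊆ D n)).card : ℝ) ≤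
      ∑ s₁ ∈ P.powerset, ∑ s₂ ∈ P.powerset, (X * (lam g T s₁ * lam g T s₂ * pr g (s₁ ∪ s₂)) +
        (|lam g T s₁| * κ ^ s₁.card) * (|lam g T s₂| * κ ^ s₂.card)) := by
    apply sum_le_sum
    intro s₁ hs₁
    apply sum_le_sum
    intro s₂ hs₂
    rw [mem_powerset] at hs₁ hs₂
    have hb := hcount (s₁ ∪ s₂) (union_subset hs₁ hs₂)
    have hκ' : κ ^ (s₁ ∪ s₂).card ≤ κ ^ (s₁.card + s₂.card) :=
      pow_le_pow_right₀ hκ (card_union_le _ _)
    set N := ((J.filter (fun n => s₁ ∪ s₂ ⊆ D n)).card : ℝ)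
    have e : lam g T s₁ * lam g T s₂ * N = X * (lam g T s₁ * lam g T s₂ * pr g (s₁ ∪ s₂)) +
        (lam g T s₁ * lam g T s₂) * (N - X * pr g (s₁ ∪ s₂)) := by ring
    rw [e]
    have : (lam g T s₁ * lam g T s₂) * (N - X * pr g (s₁ ∪ s₂)) ≤
        (|lam g T s₁| * κ ^ s₁.card) * (|lam g T s₂| * κ ^ s₂.card) := by
      calc (lam g T s₁ * lam g T s₂) * (N - X * pr g (s₁ ∪ s₂))
          ≤ |(lam g T s₁ * lam g T s₂) * (N - X * pr g (s₁ ∪ s₂))| := le_abs_self _
        _ = |lam g T s₁| * |lam g T s₂| * |N - X * pr g (s₁ ∪ s₂)| := by rw [abs_mul, abs_mul]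
        _ ≤ |lam g T s₁| * |lam g T s₂| * κ ^ (s₁.card + s₂.card) := by
            apply mul_le_mul_of_nonneg_left (hb.trans hκ') (by positivity)
        _ = (|lam g T s₁| * κ ^ s₁.card) * (|lam g T s₂| * κ ^ s₂.card) := by rw [pow_add]; ring
    linarith
  have h4 : ∑ s₁ ∈ P.powerset, ∑ s₂ ∈ P.powerset, (X * (lam g T s₁ * lam g T s₂ * pr g (s₁ ∪ s₂)) +
        (|lam g T s₁| * κ ^ s₁.card) * (|lam g T s₂| * κ ^ s₂.card)) =
      X / LL g T + (∑ s ∈ P.powerset, |lam g T s| * κ ^ s.card) ^ 2 := by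
    simp_rw [sum_add_distrib, ← mul_sum]
    rw [quad hg hT h0, sq, sum_mul]
    ring
  have h5 : ∑ s ∈ P.powerset, |lam g T s| * κ ^ s.card ≤ ∑ s ∈ T, (c * κ) ^ s.card := by
    have e : ∑ s ∈ P.powerset, |lam g T s| * κ ^ s.card = ∑ s ∈ T, |lam g T s| * κ ^ s.card := by
      symm
      apply sum_subset hT
      intro s _ hs
      rw [lam_zero hdown s hs]; simp
    rw [e]
    apply sum_le_sum
    intro s hs
    rw [mul_pow]
    exact mul_le_mul_of_nonneg_right (hc1 s hs) (by positivity)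
  have h6 : 0 ≤ ∑ s ∈ P.powerset, |lam g T s| * κ ^ s.card :=
    sum_nonneg (fun s _ => by positivity)
  have h7 : (∑ s ∈ P.powerset, |lam g T s| * κ ^ s.card) ^ 2 ≤ (∑ s ∈ T, (c * κ) ^ s.card) ^ 2 :=
    pow_le_pow_left₀ h6 h5 2
  linarith

end Pool.Agent.H25.Selberg
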