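import Mathlib
import Pool.Agent.H25.Selberg
import Pool.Agent.H25.PairCount

set_option autoImplicit false

namespace Pool.Agent.H25.LBound

open Finset Pool.Agent.H25.Selberg Pool.Agent.H25.PairCount

noncomputable def x (p : ℕ) : ℝ := 1 / ((p : ℝ) - 1)

def w (s : Finset ℕ) : ℕ := ∏ p ∈ s, p

def PP (K : ℕ) : Finset ℕ := (range (4 ^ K + 1)).filter Nat.Prime

def TT (K : ℕ) : Finset (Finset ℕ) := (PP K).powerset.filter (fun s => w s ≤ 4 ^ K)

def AA (K : ℕ) : Finset (Finset ℕ) := (PP K).powerset.filter (fun s => w s ≤ 2 ^ K)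

def BB (K d : ℕ) : Finset (Finset ℕ) := (AA K).filter (fun s => ∀ p ∈ s, ¬ p ∣ d)

/-- `f d = ∏_{p ∣ d} (1 + 1/(p-1))` -/
noncomputable def f (d : ℕ) : ℝ := ∏ p ∈ d.primeFactors, (1 + x p)

lemma x_pos {p : ℕ} (hp : p.Prime) : 0 < x p := by
  unfold x
  have : (2 : ℝ) ≤ p := by exact_mod_cast hp.two_le
  apply div_pos one_pos; linarith

lemma x_nonneg {p : ℕ} (hp : p.Prime) : 0 ≤ x p := (x_pos hp).le

lemma mem_PP {K p : ℕ} : p ∈ PP K ↔ p ≤ 4 ^ K ∧ p.Prime := by
  unfold PP; rw [mem_filter, mem_range]; constructor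
  · rintro ⟨h1, h2⟩; exact ⟨by omega, h2⟩
  · rintro ⟨h1, h2⟩; exact ⟨by omega, h2⟩

lemma g_pos {d p : ℕ} (hp : p.Prime) : 0 < g d p := by
  unfold g
  have h1 := one_le_rho d p
  have h2 := hp.pos
  apply div_pos <;> exact_mod_cast (by omega)

lemma g_le {d p : ℕ} (hd : 2 ∣ d) (hp : p.Prime) : g d p ≤ 2 / 3 := by
  unfold g
  have hp0 : (0 : ℝ) < p := by exact_mod_cast hp.pos
  rw [div_le_div_iff₀ hp0 (by norm_num)]
  rcases hp.eq_two_or_odd with h2 | h2
  · subst h2
    have : rho d 2 = 1 := by unfold rho; rw [if_pos hd]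
    rw [this]; norm_num
  · have h3 : 3 ≤ p := by have := hp.two_le; omega
    have h4 : (3 : ℝ) ≤ p := by exact_mod_cast h3
    have h5 : (rho d p : ℝ) ≤ 2 := by exact_mod_cast rho_le d p
    linarith

lemma g_lt_one {d p : ℕ} (hd : 2 ∣ d) (hp : p.Prime) : g d p < 1 := by
  have := g_le hd hp; linarith

lemma x_le_h {d p : ℕ} (hd : 2 ∣ d) (hp : p.Prime) : x p ≤ hh (g d) p := by
  unfold hh x
  have hp2 : (2 : ℝ) ≤ p := by exact_mod_cast hp.two_le
  have h1 : (1 : ℝ) / p ≤ g d p := by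
    unfold g
    have : (1 : ℝ) ≤ rho d p := by exact_mod_cast one_le_rho d p
    gcongr
  have h2 := g_lt_one hd hp
  rw [div_le_div_iff₀ (by linarith) (by linarith)]
  have h3 : 1 ≤ g d p * p := by
    rw [div_le_iff₀ (by linarith)] at h1; linarith
  nlinarith

lemma xx_le_h {d p : ℕ} (hd : 2 ∣ d) (hp : p.Prime) (hpd : ¬ p ∣ d) :
    x p * (1 + x p) + x p ≤ hh (g d) p := by
  have hp3 : 3 ≤ p := by
    have := hp.two_le
    have : p ≠ 2 := by rintro rfl; exact hpd hd
    omega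
  have hp3' : (3 : ℝ) ≤ p := by exact_mod_cast hp3
  have hg : g d p = 2 / p := by
    unfold g rho; rw [if_neg hpd]; norm_num
  unfold hh x
  rw [hg]
  have e1 : (2 : ℝ) / p / (1 - 2 / p) = 2 / (p - 2) := by
    have h1 : (p : ℝ) ≠ 0 := by linarith
    have h2 : (p : ℝ) - 2 ≠ 0 := by linarith
    have h3 : (1 : ℝ) - 2 / p ≠ 0 := by
      rw [sub_ne_zero]
      intro h
      rw [eq_div_iff h1] at h
      linarith
    field_simp
  rw [e1]
  have e2 : (1 : ℝ) / (p - 1) * (1 + 1 / (p - 1)) + 1 / (p - 1) = (2 * p - 1) / (p - 1) ^ 2 := by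
    have h2 : (p : ℝ) - 1 ≠ 0 := by linarith
    field_simp
    ring
  rw [e2, div_le_div_iff₀ (by nlinarith) (by linarith)]
  nlinarith

lemma pr_nonneg_x {s : Finset ℕ} (hs : ∀ p ∈ s, p.Prime) : 0 ≤ pr x s :=
  prod_nonneg (fun p hp => x_nonneg (hs p hp))

lemma inner_sum (t b : Finset ℕ) (hb : b ⊆ t) :
    ∑ a ∈ t.powerset.filter (fun a => t \ b ⊆ a), pr x a = pr x (t \ b) * ∏ p ∈ b, (1 + x p) := by
  have h1 : t.powerset.filter (fun a => t \ b ⊆ a) = b.powerset.image ((t \ b) ∪ ·) := by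
    have h2 := Finset.Icc_eq_image_powerset (s := t \ b) (t := t) sdiff_subset
    rw [Finset.sdiff_sdiff_eq_self hb] at h2
    rw [← h2]
    ext a
    simp only [mem_filter, mem_powerset, mem_Icc]
    tauto
  rw [h1, sum_image]
  · rw [prod_one_add, mul_sum]
    apply sum_congr rfl
    intro a ha
    rw [mem_powerset] at ha
    unfold pr
    rw [prod_union]
    rw [disjoint_left]
    intro i hi hi'
    exact (mem_sdiff.1 hi).2 (ha hi')
  · intro a ha c hc hac
    simp only [coe_powerset, Set.mem_preimage, Set.mem_powerset_iff, coe_subset] at ha hc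
    have e : ∀ u, u ⊆ b → ((t \ b) ∪ u) ∩ b = u := by
      intro u hu
      ext i
      simp only [mem_inter, mem_union, mem_sdiff]
      constructor
      · rintro ⟨h1 | h1, h2⟩
        · exact absurd h2 h1.2
        · exact h1
      · intro hi; exact ⟨Or.inr hi, hu hi⟩
    have := congrArg (· ∩ b) hac
    simp only at this
    rw [e a (by simpa using ha), e c (by simpa using hc)] at this
    exact this

lemma fiber_le {d : ℕ} (hd : 2 ∣ d) (t : Finset ℕ) (ht : ∀ p ∈ t, p.Prime) :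
    ∑ b ∈ (t.filter (fun p => ¬ p ∣ d)).powerset, ∑ a ∈ t.powerset.filter (fun a => t \ b ⊆ a),
      pr x a * pr x b ≤ pr (hh (g d)) t := by
  set t' := t.filter (fun p => ¬ p ∣ d) with ht'
  have ht't : t' ⊆ t := filter_subset _ _
  have h1 : ∑ b ∈ t'.powerset, ∑ a ∈ t.powerset.filter (fun a => t \ b ⊆ a), pr x a * pr x b =
      (∏ p ∈ t \ t', x p) * ∏ p ∈ t', (x p * (1 + x p) + x p) := by
    rw [prod_add, mul_sum]
    apply sum_congr rfl
    intro b hb
    rw [mem_powerset] at hb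
    rw [← sum_mul, inner_sum t b (hb.trans ht't)]
    have e1 : t \ b = (t \ t') ∪ (t' \ b) := by
      ext i
      simp only [mem_sdiff, mem_union]
      constructor
      · rintro ⟨h1, h2⟩
        by_cases h3 : i ∈ t'
        · exact Or.inr ⟨h3, h2⟩
        · exact Or.inl ⟨h1, h3⟩
      · rintro (⟨h1, h2⟩ | ⟨h1, h2⟩)
        · exact ⟨h1, fun h => h2 (hb h)⟩
        · exact ⟨ht't h1, h2⟩
    have e2 : Disjoint (t \ t') (t' \ b) := by
      rw [disjoint_left]
      intro i hi hi'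
      exact (mem_sdiff.1 hi).2 (mem_sdiff.1 hi').1
    unfold pr
    rw [e1, prod_union e2, prod_mul_distrib]
    ring
  rw [h1]
  unfold pr
  rw [← prod_sdiff ht't]
  apply mul_le_mul
  · apply prod_le_prod
    · intro p hp
      exact x_nonneg (ht p (mem_sdiff.1 hp).1)
    · intro p hp
      exact x_le_h hd (ht p (mem_sdiff.1 hp).1)
  · apply prod_le_prod
    · intro p hp
      have := x_nonneg (ht p (ht't hp))
      positivity
    · intro p hp
      exact xx_le_h hd (ht p (ht't hp)) (mem_filter.1 hp).2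
  · apply prod_nonneg
    intro p hp
    have := x_nonneg (ht p (ht't hp))
    positivity
  · apply prod_nonneg
    intro p hp
    exact (hh_pos ⟨g_pos (ht p (mem_sdiff.1 hp).1), g_lt_one hd (ht p (mem_sdiff.1 hp).1)⟩).le

lemma w_union_le {a b : Finset ℕ} (ha : ∀ p ∈ a, p.Prime) :
    w (a ∪ b) ≤ w a * w b := by
  unfold w
  rw [← prod_union_inter]
  apply Nat.le_mul_of_pos_right
  exact prod_pos (fun p hp => (ha p (mem_inter.1 hp).1).pos)

lemma L_ge {K d : ℕ} (hd : 2 ∣ d) :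
    (∑ a ∈ AA K, pr x a) * (∑ b ∈ BB K d, pr x b) ≤ LL (g d) (TT K) := by
  rw [sum_mul_sum, ← sum_product']
  have hmaps : ∀ q ∈ AA K ×ˢ BB K d, q.1 ∪ q.2 ∈ TT K := by
    rintro ⟨a, b⟩ hq
    simp only [mem_product, AA, BB, TT, mem_filter, mem_powerset] at hq ⊢
    obtain ⟨⟨ha1, ha2⟩, ⟨hb1, hb2⟩, hb3⟩ := hq
    refine ⟨union_subset ha1 hb1, ?_⟩
    refine (w_union_le (fun p hp => (mem_PP.1 (ha1 hp)).2)).trans ?_
    have : (4 : ℕ) ^ K = 2 ^ K * 2 ^ K := by rw [← mul_pow]; norm_num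
    rw [this]
    exact Nat.mul_le_mul ha2 hb2
  rw [← sum_fiberwise_of_maps_to hmaps]
  unfold LL
  apply sum_le_sum
  intro t ht
  simp only [TT, mem_filter, mem_powerset] at ht
  have htp : ∀ p ∈ t, p.Prime := fun p hp => (mem_PP.1 (ht.1 hp)).2
  refine le_trans ?_ (fiber_le hd t htp)
  rw [sum_sigma' ]
  have h2 : ∀ q ∈ (AA K ×ˢ BB K d).filter (fun q => q.1 ∪ q.2 = t),
      (⟨q.2, q.1⟩ : Σ _ : Finset ℕ, Finset ℕ) ∈
        (t.filter (fun p => ¬ p ∣ d)).powerset.sigma (fun b => t.powerset.filter (fun a => t \ b ⊆ a)) := by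
    rintro ⟨a, b⟩ hq
    simp only [mem_filter, mem_product, BB] at hq
    obtain ⟨⟨ha, hb1, hb2⟩, rfl⟩ := hq
    simp only [mem_sigma, mem_powerset, mem_filter]
    refine ⟨?_, subset_union_left, ?_⟩
    · intro i hi
      simp only [mem_filter, mem_union]
      exact ⟨Or.inr hi, hb2 i hi⟩
    · intro i hi
      simp only [mem_sdiff, mem_union] at hi
      tauto
  have h3 : ∑ q ∈ (AA K ×ˢ BB K d).filter (fun q => q.1 ∪ q.2 = t), pr x q.1 * pr x q.2 =
      ∑ z ∈ ((AA K ×ˢ BB K d).filter (fun q => q.1 ∪ q.2 = t)).image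
        (fun q => (⟨q.2, q.1⟩ : Σ _ : Finset ℕ, Finset ℕ)), pr x z.2 * pr x z.1 := by
    rw [sum_image]
    rintro ⟨a, b⟩ _ ⟨c, e⟩ _ h
    simp only [Sigma.mk.injEq, heq_eq_eq] at h
    simp [h.1, h.2]
  rw [h3]
  apply sum_le_sum_of_subset_of_nonneg
  · intro z hz
    rw [mem_image] at hz
    obtain ⟨q, hq, rfl⟩ := hz
    exact h2 q hq
  · rintro ⟨b, a⟩ hz _
    simp only [mem_sigma, mem_powerset, mem_filter] at hz
    apply mul_nonneg
    · exact pr_nonneg_x (fun p hp => htp p (hz.2.1 hp))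
    · exact pr_nonneg_x (fun p hp => htp p (mem_filter.1 (hz.1 hp)).1)

lemma fac_sum (a : Finset ℕ) (ha : ∀ p ∈ a, p.Prime) (M : Finset ℕ)
    (hM : ∀ m ∈ M, m ∈ Nat.factoredNumbers a) :
    ∑ m ∈ M, (1 : ℝ) / m ≤ ∏ p ∈ a, (1 - 1 / (p : ℝ))⁻¹ := by
  let F : ℕ →* ℝ := ⟨⟨fun n => ((n : ℝ))⁻¹, by simp⟩, fun m n => by
    simp only; push_cast; rw [mul_inv]⟩
  have hF : ∀ {p : ℕ}, p.Prime → ‖F p‖ < 1 := by
    intro p hp
    change ‖((p : ℝ))⁻¹‖ < 1
    rw [norm_inv, Real.norm_natCast]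
    apply inv_lt_one_of_one_lt₀
    exact_mod_cast hp.one_lt
  have h := EulerProduct.summable_and_hasSum_factoredNumbers_prod_filter_prime_geometric hF a
  have h2 : a.filter Nat.Prime = a := filter_true_of_mem ha
  have h3 := h.2
  rw [h2] at h3
  have e1 : ∏ p ∈ a, (1 - F p)⁻¹ = ∏ p ∈ a, (1 - 1 / (p : ℝ))⁻¹ := by
    apply prod_congr rfl; intro p _; rw [one_div]; rfl
  rw [e1] at h3
  have h4 : ∑ m ∈ M.attach, F (m : ℕ) ≤ ∏ p ∈ a, (1 - 1 / (p : ℝ))⁻¹ := by
    have h5 : ∑ m ∈ M.attach.image (fun m : {m // m ∈ M} => (⟨(m : ℕ), hM m m.2⟩ : Nat.factoredNumbers a)), F (m : ℕ) =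
        ∑ m ∈ M.attach, F (m : ℕ) := by
      rw [sum_image]
      intro u _ v _ huv
      simp only [Subtype.mk.injEq] at huv
      exact Subtype.ext huv
    rw [← h5]
    apply sum_le_hasSum _ _ h3
    intro i _
    change 0 ≤ ((((i : ℕ) : ℝ)))⁻¹
    positivity
  rw [sum_attach M (fun m => F m)] at h4
  refine le_trans (le_of_eq ?_) h4
  apply sum_congr rfl
  intro m _
  rw [one_div]; rfl

lemma fiber_rad (a : Finset ℕ) (ha : ∀ p ∈ a, p.Prime) (N : ℕ) :
    ∑ n ∈ (Icc 1 N).filter (fun n => n.primeFactors = a), (1 : ℝ) / n ≤ pr x a := by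
  have hwpos : 0 < w a := prod_pos (fun p hp => (ha p hp).pos)
  have hdiv : ∀ n ∈ (Icc 1 N).filter (fun n => n.primeFactors = a), w a ∣ n := by
    intro n hn
    rw [mem_filter] at hn
    unfold w
    rw [← hn.2]
    exact Nat.prod_primeFactors_dvd n
  have h1 : ∑ n ∈ (Icc 1 N).filter (fun n => n.primeFactors = a), (1 : ℝ) / n =
      (1 / (w a : ℝ)) * ∑ m ∈ ((Icc 1 N).filter (fun n => n.primeFactors = a)).image (fun n => n / w a),
        (1 : ℝ) / m := by
    rw [sum_image, mul_sum]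
    · apply sum_congr rfl
      intro n hn
      obtain ⟨k, hk⟩ := hdiv n hn
      rw [hk, Nat.mul_div_cancel_left k hwpos]
      push_cast
      rw [one_div_mul_one_div]
    · intro u hu v hv huv
      simp only at huv
      rw [← Nat.mul_div_cancel' (hdiv u hu), ← Nat.mul_div_cancel' (hdiv v hv), huv]
  rw [h1]
  have h2 := fac_sum a ha (((Icc 1 N).filter (fun n => n.primeFactors = a)).image (fun n => n / w a)) (by
    intro m hm
    rw [mem_image] at hm
    obtain ⟨n, hn, rfl⟩ := hm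
    have hd := hdiv n hn
    rw [mem_filter, mem_Icc] at hn
    rw [Nat.mem_factoredNumbers_iff_forall_le]
    constructor
    · have : 0 < n / w a := Nat.div_pos (Nat.le_of_dvd hn.1.1 hd) hwpos
      omega
    · intro p _ hp hpd
      rw [← hn.2]
      rw [Nat.mem_primeFactors]
      exact ⟨hp, hpd.trans (Nat.div_dvd_of_dvd hd), by omega⟩)
  have h3 : (1 / (w a : ℝ)) * ∏ p ∈ a, (1 - 1 / (p : ℝ))⁻¹ = pr x a := by
    unfold w pr
    push_cast
    rw [one_div, ← prod_inv_distrib, ← prod_mul_distrib]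
    apply prod_congr rfl
    intro p hp
    unfold x
    have hp2 : (2 : ℝ) ≤ p := by exact_mod_cast (ha p hp).two_le
    have h1 : (p : ℝ) ≠ 0 := by linarith
    have h2 : (p : ℝ) - 1 ≠ 0 := by linarith
    have h3 : (1 : ℝ) - 1 / p ≠ 0 := by
      rw [sub_ne_zero]; intro h; rw [eq_div_iff h1] at h; linarith
    field_simp
  rw [← h3]
  apply mul_le_mul_of_nonneg_left h2 (by positivity)

lemma S1_ge (K : ℕ) : (K : ℝ) * Real.log 2 ≤ ∑ a ∈ AA K, pr x a := by
  have h1 : ∑ n ∈ Icc (1 : ℕ) (2 ^ K), (1 : ℝ) / (n : ℝ) ≤ ∑ a ∈ AA K, pr x a := by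
    have hmaps : ∀ n ∈ Icc (1 : ℕ) (2 ^ K), n.primeFactors ∈ AA K := by
      intro n hn
      rw [mem_Icc] at hn
      simp only [AA, mem_filter, mem_powerset]
      constructor
      · intro p hp
        rw [mem_PP]
        have h2 := Nat.le_of_mem_primeFactors hp
        have h3 : (2 : ℕ) ^ K ≤ 4 ^ K := Nat.pow_le_pow_left (by norm_num) K
        exact ⟨by omega, Nat.prime_of_mem_primeFactors hp⟩
      · refine le_trans ?_ hn.2
        exact Nat.le_of_dvd (by omega) (Nat.prod_primeFactors_dvd n)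
    rw [← sum_fiberwise_of_maps_to hmaps]
    apply sum_le_sum
    intro a ha
    simp only [AA, mem_filter, mem_powerset] at ha
    exact fiber_rad a (fun p hp => (mem_PP.1 (ha.1 hp)).2) _
  refine le_trans ?_ h1
  have h2 := log_add_one_le_harmonic (2 ^ K)
  have h3 : ((harmonic (2 ^ K) : ℚ) : ℝ) = ∑ n ∈ Icc (1 : ℕ) (2 ^ K), (1 : ℝ) / (n : ℝ) := by
    rw [harmonic_eq_sum_Icc]
    push_cast
    apply sum_congr rfl
    intro n _
    rw [one_div]
  rw [h3] at h2
  refine le_trans ?_ h2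
  rw [← Real.log_pow]
  apply Real.log_le_log (by positivity)
  push_cast
  linarith

lemma x_one_le_f (d : ℕ) : 1 ≤ f d := by
  unfold f
  have h : ∏ p ∈ d.primeFactors, (1 : ℝ) ≤ ∏ p ∈ d.primeFactors, (1 + x p) := by
    apply prod_le_prod
    · intro _ _; norm_num
    · intro p hp
      have := x_nonneg (Nat.prime_of_mem_primeFactors hp)
      linarith
  simpa using h

lemma prod_mono_one {s t : Finset ℕ} (hst : s ⊆ t) (F : ℕ → ℝ) (h0 : ∀ p ∈ s, 0 ≤ F p)
    (h1 : ∀ p ∈ t, 1 ≤ F p) : ∏ p ∈ s, F p ≤ ∏ p ∈ t, F p := by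
  rw [← prod_sdiff hst]
  have h2 : 0 ≤ ∏ p ∈ s, F p := prod_nonneg h0
  have h3 : (1 : ℝ) ≤ ∏ p ∈ t \ s, F p := by
    have : ∏ p ∈ t \ s, (1 : ℝ) ≤ ∏ p ∈ t \ s, F p := by
      apply prod_le_prod
      · intro _ _; norm_num
      · intro p hp; exact h1 p (mem_sdiff.1 hp).1
    simpa using this
  nlinarith

lemma S2_ge (K d : ℕ) (hd0 : 0 < d) : ∑ a ∈ AA K, pr x a ≤ f d * ∑ b ∈ BB K d, pr x b := by
  have h1 : ∑ a ∈ AA K, pr x a ≤
      ∑ z ∈ ((PP K).filter (fun p => p ∣ d)).powerset ×ˢ BB K d, pr x z.1 * pr x z.2 := by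
    have h2 : ∑ a ∈ AA K, pr x a = ∑ z ∈ (AA K).image
        (fun a => (a.filter (fun p => p ∣ d), a.filter (fun p => ¬ p ∣ d))), pr x z.1 * pr x z.2 := by
      rw [sum_image]
      · apply sum_congr rfl
        intro a _
        simp only
        unfold pr
        rw [prod_filter_mul_prod_filter_not]
      · intro u _ v _ huv
        simp only [Prod.mk.injEq] at huv
        rw [← filter_union_filter_not_eq (fun p => p ∣ d) u,
          ← filter_union_filter_not_eq (fun p => p ∣ d) v, huv.1, huv.2]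
    rw [h2]
    apply sum_le_sum_of_subset_of_nonneg
    · intro z hz
      rw [mem_image] at hz
      obtain ⟨a, ha, rfl⟩ := hz
      simp only [AA, mem_filter, mem_powerset] at ha
      simp only [mem_product, mem_powerset, BB, AA, mem_filter]
      refine ⟨?_, ⟨(filter_subset _ _).trans ha.1, ?_⟩, ?_⟩
      · intro i hi
        rw [mem_filter] at hi ⊢
        exact ⟨ha.1 hi.1, hi.2⟩
      · refine le_trans ?_ ha.2
        unfold w
        apply prod_le_prod_of_subset_of_one_le' (filter_subset _ _)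
        intro i hi _
        exact (mem_PP.1 (ha.1 hi)).2.one_le
      · intro p hp
        exact hp.2
    · rintro ⟨l, b⟩ hz _
      simp only [mem_product, mem_powerset, BB, AA, mem_filter] at hz
      apply mul_nonneg
      · exact pr_nonneg_x (fun p hp => (mem_PP.1 (mem_filter.1 (hz.1 hp)).1).2)
      · exact pr_nonneg_x (fun p hp => (mem_PP.1 (hz.2.1.1 hp)).2)
  refine h1.trans ?_
  rw [sum_product]
  simp only
  rw [← sum_mul_sum]
  have h3 : ∑ l ∈ ((PP K).filter (fun p => p ∣ d)).powerset, pr x l ≤ f d := by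
    unfold f pr
    rw [← prod_one_add]
    apply prod_mono_one
    · intro p hp
      rw [mem_filter, mem_PP] at hp
      rw [Nat.mem_primeFactors]
      exact ⟨hp.1.2, hp.2, by omega⟩
    · intro p hp
      have := x_nonneg (mem_PP.1 (mem_filter.1 hp).1).2
      linarith
    · intro p hp
      have := x_nonneg (Nat.prime_of_mem_primeFactors hp)
      linarith
  apply mul_le_mul_of_nonneg_right h3
  apply sum_nonneg
  intro b hb
  simp only [BB, AA, mem_filter, mem_powerset] at hb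
  exact pr_nonneg_x (fun p hp => (mem_PP.1 (hb.1.1 hp)).2)

end Pool.Agent.H25.LBound
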