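import Mathlib
import Pool.Agent.H25.LBound

set_option autoImplicit false

namespace Pool.Agent.H25.PairBound

open Finset Pool.Agent.H25.Selberg Pool.Agent.H25.PairCount Pool.Agent.H25.LBound

lemma L_final (K d : ℕ) (hd : 2 ∣ d) (hd0 : 0 < d) :
    ((K : ℝ) * Real.log 2) ^ 2 / f d ≤ LL (g d) (TT K) := by
  have h1 := S1_ge K
  have h2 := S2_ge K d hd0
  have h3 := L_ge (K := K) hd
  have hf := x_one_le_f d
  have hf0 : 0 < f d := by linarith
  have hlog : 0 < Real.log 2 := Real.log_pos (by norm_num)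
  have hk : 0 ≤ (K : ℝ) * Real.log 2 := by positivity
  rw [div_le_iff₀ hf0]
  set S1 := ∑ a ∈ AA K, pr x a
  set S2 := ∑ b ∈ BB K d, pr x b
  have h4 : ((K : ℝ) * Real.log 2) ^ 2 ≤ S1 ^ 2 := pow_le_pow_left₀ hk h1 2
  have h5 : S1 ^ 2 ≤ S1 * (f d * S2) := by
    rw [sq]; apply mul_le_mul_of_nonneg_left h2; linarith
  have h6 : S1 * (f d * S2) = (S1 * S2) * f d := by ring
  have h7 : (S1 * S2) * f d ≤ LL (g d) (TT K) * f d := mul_le_mul_of_nonneg_right h3 hf0.le
  linarith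

lemma w_inj {s t : Finset ℕ} (hs : ∀ p ∈ s, p.Prime) (ht : ∀ p ∈ t, p.Prime) (h : w s = w t) :
    s = t := by
  unfold w at h
  rw [← Nat.primeFactors_prod hs, ← Nat.primeFactors_prod ht, h]

lemma T_sum (K : ℕ) : ∑ s ∈ TT K, ((3 : ℝ) * 2) ^ s.card ≤ ((4 : ℝ) ^ K) ^ 4 := by
  have h1 : ∀ s ∈ TT K, ((3 : ℝ) * 2) ^ s.card ≤ ((4 : ℝ) ^ K) ^ 3 := by
    intro s hs
    simp only [TT, mem_filter, mem_powerset] at hs
    have hp : ∀ p ∈ s, p.Prime := fun p hp => (mem_PP.1 (hs.1 hp)).2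
    have h2 : 6 ^ s.card ≤ (w s) ^ 3 := by
      unfold w
      rw [← prod_pow, ← prod_const]
      apply prod_le_prod'
      intro p hpp
      have := (hp p hpp).two_le
      calc 6 ≤ 2 ^ 3 := by norm_num
        _ ≤ p ^ 3 := Nat.pow_le_pow_left this 3
    have h3 : (w s) ^ 3 ≤ (4 ^ K) ^ 3 := Nat.pow_le_pow_left hs.2 3
    have h4 : 6 ^ s.card ≤ (4 ^ K) ^ 3 := h2.trans h3
    have : ((3 : ℝ) * 2) = ((6 : ℕ) : ℝ) := by norm_num
    rw [this]
    exact_mod_cast h4
  have h2 : (TT K).card ≤ 4 ^ K := by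
    have h3 : (TT K).card ≤ (Icc 1 (4 ^ K)).card := by
      apply card_le_card_of_injOn w
      · intro s hs
        simp only [coe_filter, TT, mem_powerset, Set.mem_ofPred_eq] at hs
        simp only [coe_Icc, Set.mem_Icc]
        refine ⟨?_, hs.2⟩
        exact prod_pos (fun p hp => (mem_PP.1 (hs.1 hp)).2.pos)
      · intro s hs t ht hst
        simp only [coe_filter, TT, mem_powerset, Set.mem_ofPred_eq] at hs ht
        exact w_inj (fun p hp => (mem_PP.1 (hs.1 hp)).2) (fun p hp => (mem_PP.1 (ht.1 hp)).2) hst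
    simpa using h3
  calc ∑ s ∈ TT K, ((3 : ℝ) * 2) ^ s.card ≤ ∑ s ∈ TT K, ((4 : ℝ) ^ K) ^ 3 := sum_le_sum h1
    _ = (TT K).card * ((4 : ℝ) ^ K) ^ 3 := by rw [sum_const, nsmul_eq_mul]
    _ ≤ (4 : ℝ) ^ K * ((4 : ℝ) ^ K) ^ 3 := by
        apply mul_le_mul_of_nonneg_right _ (by positivity)
        exact_mod_cast h2
    _ = ((4 : ℝ) ^ K) ^ 4 := by ring

/-- number of prime pairs `n, n+d` with `n` in `[a, a+X)` -/
def N (a X d : ℕ) : ℕ := ((Ico a (a + X)).filter (fun n => n.Prime ∧ (n + d).Prime)).card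

lemma sifted_bound (K d : ℕ) (hd : 2 ∣ d) (hd0 : 0 < d) (a X : ℕ) (hK : 1 ≤ K) :
    (((Ico a (a + X)).filter (fun n => (PP K).filter (fun p => p ∣ n * (n + d)) = ∅)).card : ℝ) ≤
      X * f d / ((K : ℝ) * Real.log 2) ^ 2 + (((4 : ℝ) ^ K) ^ 4) ^ 2 := by
  have hg : ∀ p ∈ PP K, 0 < g d p ∧ g d p < 1 := fun p hp =>
    ⟨g_pos (mem_PP.1 hp).2, g_lt_one hd (mem_PP.1 hp).2⟩
  have hT : TT K ⊆ (PP K).powerset := filter_subset _ _
  have h0 : ∅ ∈ TT K := by
    have hw : w (∅ : Finset ℕ) ≤ 4 ^ K := by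
      have : w (∅ : Finset ℕ) = 1 := by simp [w]
      rw [this]
      exact Nat.one_le_pow K 4 (by norm_num)
    unfold TT
    exact mem_filter.2 ⟨empty_mem_powerset _, hw⟩
  have hdown : ∀ t ∈ TT K, ∀ s, s ⊆ t → s ∈ TT K := by
    intro t ht s hst
    simp only [TT, mem_filter, mem_powerset] at ht ⊢
    refine ⟨hst.trans ht.1, le_trans ?_ ht.2⟩
    unfold w
    apply prod_le_prod_of_subset_of_one_le' hst
    intro i hi _
    exact (mem_PP.1 (ht.1 hi)).2.one_le
  have hc : ∀ p ∈ PP K, 1 / (1 - g d p) ≤ 3 := by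
    intro p hp
    have h1 := g_le hd (mem_PP.1 hp).2
    rw [div_le_iff₀ (by linarith)]
    linarith
  have h := selberg (P := PP K) (T := TT K) (g := g d) (Ico a (a + X))
    (fun n => (PP K).filter (fun p => p ∣ n * (n + d))) (fun n _ => filter_subset _ _)
    hg hT h0 hdown 3 hc X 2 (by norm_num) (by
      intro s hs
      have hsp : ∀ p ∈ s, p.Prime := fun p hp => (mem_PP.1 (hs hp)).2
      have h1 := pair_count d s hsp a X
      have h2 : (Ico a (a + X)).filter (fun n => s ⊆ (PP K).filter (fun p => p ∣ n * (n + d))) =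
          (Ico a (a + X)).filter (fun n => ∀ p ∈ s, p ∣ n * (n + d)) := by
        apply filter_congr
        intro n _
        constructor
        · intro h p hp; exact (mem_filter.1 (h hp)).2
        · intro h p hp; exact mem_filter.2 ⟨hs hp, h p hp⟩
      rw [h2]
      exact h1)
  refine h.trans ?_
  have hL := L_final K d hd hd0
  have hlog : 0 < Real.log 2 := Real.log_pos (by norm_num)
  have hK0 : (0 : ℝ) < K := by exact_mod_cast hK
  have hf0 : 0 < f d := by have := x_one_le_f d; linarith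
  have hpos : 0 < ((K : ℝ) * Real.log 2) ^ 2 / f d := by positivity
  have h1 : (X : ℝ) / LL (g d) (TT K) ≤ X * f d / ((K : ℝ) * Real.log 2) ^ 2 := by
    calc (X : ℝ) / LL (g d) (TT K) ≤ X / (((K : ℝ) * Real.log 2) ^ 2 / f d) := by
          apply div_le_div_of_nonneg_left (by positivity) hpos hL
      _ = X * f d / ((K : ℝ) * Real.log 2) ^ 2 := by
          field_simp
  have h2 : (∑ s ∈ TT K, ((3 : ℝ) * 2) ^ s.card) ^ 2 ≤ (((4 : ℝ) ^ K) ^ 4) ^ 2 :=
    pow_le_pow_left₀ (sum_nonneg (fun _ _ => by positivity)) (T_sum K) 2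
  convert add_le_add h1 h2 using 3

lemma N_sieve (K d : ℕ) (hd : 2 ∣ d) (hd0 : 0 < d) (a X : ℕ) (hK : 1 ≤ K) :
    (N a X d : ℝ) ≤ (4 : ℝ) ^ K + 1 + X * f d / ((K : ℝ) * Real.log 2) ^ 2 + (((4 : ℝ) ^ K) ^ 4) ^ 2 := by
  have h1 := sifted_bound K d hd hd0 a X hK
  have h2 : N a X d ≤ (4 ^ K + 1) +
      ((Ico a (a + X)).filter (fun n => (PP K).filter (fun p => p ∣ n * (n + d)) = ∅)).card := by
    unfold N
    have h3 : (Ico a (a + X)).filter (fun n => n.Prime ∧ (n + d).Prime) ⊆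
        (range (4 ^ K + 1)) ∪
        ((Ico a (a + X)).filter (fun n => (PP K).filter (fun p => p ∣ n * (n + d)) = ∅)) := by
      intro n hn
      rw [mem_filter] at hn
      rw [mem_union, mem_range, mem_filter]
      by_cases hnK : n < 4 ^ K + 1
      · exact Or.inl hnK
      · right
        refine ⟨hn.1, ?_⟩
        rw [filter_eq_empty_iff]
        intro p hp hpd
        rw [mem_PP] at hp
        rcases (Nat.Prime.dvd_mul hp.2).1 hpd with h | h
        · have := (Nat.prime_dvd_prime_iff_eq hp.2 hn.2.1).1 h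
          omega
        · have := (Nat.prime_dvd_prime_iff_eq hp.2 hn.2.2).1 h
          omega
    refine (card_le_card h3).trans ((card_union_le _ _).trans ?_)
    rw [card_range]
  have h3 : (N a X d : ℝ) ≤ (4 : ℝ) ^ K + 1 +
      (((Ico a (a + X)).filter (fun n => (PP K).filter (fun p => p ∣ n * (n + d)) = ∅)).card : ℝ) := by
    exact_mod_cast h2
  linarith

lemma N_odd (d : ℕ) (hd : ¬ 2 ∣ d) (a X : ℕ) : N a X d ≤ 1 := by
  unfold N
  rw [card_le_one]
  have key : ∀ n ∈ (Ico a (a + X)).filter (fun n => n.Prime ∧ (n + d).Prime), n = 2 := by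
    intro n hn
    rw [mem_filter] at hn
    rcases hn.2.1.eq_two_or_odd with h | h
    · exact h
    · exfalso
      have h2 : d % 2 = 1 := by omega
      have h3 : (n + d) % 2 = 0 := by omega
      rcases hn.2.2.eq_two_or_odd with h4 | h4
      · have := hn.2.1.two_le; omega
      · omega
  intro u hu v hv
  rw [key u hu, key v hv]

lemma sq_le_pow (U : ℕ) : (U + 1) ^ 2 ≤ 4 * 2 ^ U := by
  induction U with
  | zero => norm_num
  | succ n ih =>
    rcases Nat.lt_or_ge n 2 with h | h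
    · interval_cases n <;> norm_num
    · have : (n + 1 + 1) ^ 2 ≤ 2 * (n + 1) ^ 2 := by nlinarith
      rw [pow_succ 2 n]
      omega

lemma K_le_pow (K : ℕ) : K ^ 2 ≤ 4 ^ K := by
  have h1 : K < 2 ^ K := Nat.lt_two_pow_self
  have h2 : (4 : ℕ) ^ K = (2 ^ K) ^ 2 := by rw [← pow_mul, mul_comm, pow_mul]; norm_num
  rw [h2]
  exact Nat.pow_le_pow_left h1.le 2

/-- final uniform pair bound -/
lemma N_bound (U d a : ℕ) (hd0 : 0 < d) :
    (N a (2 ^ (U + 2)) d : ℝ) ≤ 50000 * f d * (2 ^ U / ((U : ℝ) + 1) ^ 2) := by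
  have hf := x_one_le_f d
  have hU : (0 : ℝ) < (U : ℝ) + 1 := by positivity
  have hq : (0 : ℝ) < 2 ^ U / ((U : ℝ) + 1) ^ 2 := by positivity
  have hone : (1 : ℝ) ≤ 4 * (2 ^ U / ((U : ℝ) + 1) ^ 2) := by
    rw [mul_div_assoc', le_div_iff₀ (by positivity)]
    have := sq_le_pow U
    have h' : ((U : ℝ) + 1) ^ 2 ≤ 4 * 2 ^ U := by exact_mod_cast this
    linarith
  by_cases hd : 2 ∣ d
  · rcases Nat.lt_or_ge U 32 with hU32 | hU32
    · have h1 : N a (2 ^ (U + 2)) d ≤ 2 ^ (U + 2) := by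
        unfold N
        refine (card_filter_le _ _).trans ?_
        simp
      have h2 : (N a (2 ^ (U + 2)) d : ℝ) ≤ 2 ^ (U + 2) := by exact_mod_cast h1
      have h3 : (2 : ℝ) ^ (U + 2) ≤ 4096 * (2 ^ U / ((U : ℝ) + 1) ^ 2) := by
        rw [mul_div_assoc', le_div_iff₀ (by positivity), pow_add]
        have h4 : (U : ℝ) + 1 ≤ 32 := by
          have : U + 1 ≤ 32 := by omega
          exact_mod_cast this
        have h5 : ((U : ℝ) + 1) ^ 2 ≤ 32 ^ 2 := pow_le_pow_left₀ hU.le h4 2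
        have h6 : (0 : ℝ) < 2 ^ U := by positivity
        nlinarith
      have h4 : 4096 * (2 ^ U / ((U : ℝ) + 1) ^ 2) ≤ 50000 * f d * (2 ^ U / ((U : ℝ) + 1) ^ 2) := by
        apply mul_le_mul_of_nonneg_right _ hq.le
        linarith
      linarith
    · set K := U / 32 with hK
      have hK1 : 1 ≤ K := by omega
      have hUK : U + 1 ≤ 64 * K := by omega
      have hKU : 32 * K ≤ U := by omega
      have h1 := N_sieve K d hd hd0 a (2 ^ (U + 2)) hK1
      have hK0 : (0 : ℝ) < K := by exact_mod_cast hK1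
      have hUK' : (U : ℝ) + 1 ≤ 64 * K := by exact_mod_cast hUK
      have hlog : (0.69 : ℝ) < Real.log 2 := by have := Real.log_two_gt_d9; linarith
      have hsq : ((U : ℝ) + 1) ^ 2 ≤ 4096 * (K : ℝ) ^ 2 := by
        have := pow_le_pow_left₀ hU.le hUK' 2
        rw [mul_pow] at this
        norm_num at this ⊢
        linarith
      -- main term
      have h2 : ((2 ^ (U + 2) : ℕ) : ℝ) * f d / ((K : ℝ) * Real.log 2) ^ 2 ≤
          35000 * f d * (2 ^ U / ((U : ℝ) + 1) ^ 2) := by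
        have e : 35000 * f d * (2 ^ U / ((U : ℝ) + 1) ^ 2) =
          (35000 * f d * 2 ^ U) / ((U : ℝ) + 1) ^ 2 := by ring
        rw [e, div_le_div_iff₀ (by positivity) (by positivity)]
        push_cast
        rw [pow_add, mul_pow]
        have hl2 : (0.476 : ℝ) ≤ Real.log 2 ^ 2 := by nlinarith
        have hA : 0 ≤ 2 ^ U * f d := by positivity
        have h5 : 4 * ((U : ℝ) + 1) ^ 2 ≤ 35000 * ((K : ℝ) ^ 2 * Real.log 2 ^ 2) := by
          have : (K : ℝ) ^ 2 * 0.476 ≤ (K : ℝ) ^ 2 * Real.log 2 ^ 2 :=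
            mul_le_mul_of_nonneg_left hl2 (by positivity)
          nlinarith
        nlinarith [mul_le_mul_of_nonneg_left h5 hA]
      -- error terms
      have h3 : (4 : ℝ) ^ K + 1 + (((4 : ℝ) ^ K) ^ 4) ^ 2 ≤ 12288 * (2 ^ U / ((U : ℝ) + 1) ^ 2) := by
        have hp1 : (1 : ℝ) ≤ (4 : ℝ) ^ K := one_le_pow₀ (by norm_num)
        set q := (4 : ℝ) ^ K with hqdef
        have hp8 : (q ^ 4) ^ 2 = q ^ 8 := by ring
        have hq8 : q ≤ q ^ 8 := by
          calc q = q ^ 1 := (pow_one q).symm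
            _ ≤ q ^ 8 := pow_le_pow_right₀ hp1 (by norm_num)
        have h1q8 : 1 ≤ q ^ 8 := one_le_pow₀ hp1
        rw [hp8, mul_div_assoc', le_div_iff₀ (by positivity)]
        have hKq : (K : ℝ) ^ 2 ≤ q := by
          rw [hqdef]; exact_mod_cast K_le_pow K
        have hq16 : q ^ 16 ≤ 2 ^ U := by
          have e : q ^ 16 = 2 ^ (32 * K) := by
            rw [hqdef, ← pow_mul, show (4 : ℝ) = 2 ^ 2 by norm_num, ← pow_mul]
            congr 1; ring
          rw [e]
          exact pow_le_pow_right₀ (by norm_num) hKU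
        have hqle8 : q ≤ q ^ 8 := hq8
        have e16 : q ^ 16 = q ^ 8 * q ^ 8 := by ring
        have h6 : ((U : ℝ) + 1) ^ 2 ≤ 4096 * q ^ 8 := by linarith
        have h7 : q + 1 + q ^ 8 ≤ 3 * q ^ 8 := by linarith
        calc (q + 1 + q ^ 8) * ((U : ℝ) + 1) ^ 2 ≤ (3 * q ^ 8) * (4096 * q ^ 8) := by
              apply mul_le_mul h7 h6 (by positivity) (by positivity)
          _ = 12288 * q ^ 16 := by rw [e16]; ring
          _ ≤ 12288 * 2 ^ U := by linarith
      have h4 : 12288 * (2 ^ U / ((U : ℝ) + 1) ^ 2) ≤ 12288 * f d * (2 ^ U / ((U : ℝ) + 1) ^ 2) := by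
        apply mul_le_mul_of_nonneg_right _ hq.le
        linarith
      have h5 : 35000 * f d * (2 ^ U / ((U : ℝ) + 1) ^ 2) + 12288 * f d * (2 ^ U / ((U : ℝ) + 1) ^ 2)
          ≤ 50000 * f d * (2 ^ U / ((U : ℝ) + 1) ^ 2) := by
        have : 0 ≤ f d * (2 ^ U / ((U : ℝ) + 1) ^ 2) := by positivity
        nlinarith
      linarith
  · have h1 : (N a (2 ^ (U + 2)) d : ℝ) ≤ 1 := by exact_mod_cast N_odd d hd a _
    have h4 : 4 * (2 ^ U / ((U : ℝ) + 1) ^ 2) ≤ 50000 * f d * (2 ^ U / ((U : ℝ) + 1) ^ 2) := by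
      apply mul_le_mul_of_nonneg_right _ hq.le
      linarith
    linarith

lemma sum_tele (M : ℕ) : ∑ n ∈ Icc 2 M, (1 : ℝ) / (n * (n - 1)) ≤ 1 := by
  have h : ∀ M : ℕ, 1 ≤ M → ∑ n ∈ Icc 2 M, (1 : ℝ) / (n * (n - 1)) = 1 - 1 / M := by
    intro M hM
    induction M, hM using Nat.le_induction with
    | base => simp
    | succ n hn ih =>
      rw [sum_Icc_succ_top (by omega), ih]
      have h1 : (n : ℝ) ≠ 0 := by positivity
      have h2 : (n : ℝ) + 1 ≠ 0 := by positivity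
      push_cast
      have h3 : (n : ℝ) + 1 - 1 = n := by ring
      rw [h3]
      field_simp
      ring
  rcases Nat.eq_zero_or_pos M with h0 | h0
  · subst h0; simp
  · rw [h M h0]
    have : (0 : ℝ) ≤ 1 / M := by positivity
    linarith

lemma f_sum (M : ℕ) : ∑ d ∈ Icc 1 M, f d / d ≤ 3 * ∑ m ∈ Icc 1 M, (1 : ℝ) / m := by
  set PM := (range (M + 1)).filter Nat.Prime with hPM
  have hprime : ∀ p ∈ PM, p.Prime := fun p hp => (mem_filter.1 hp).2
  set H := ∑ m ∈ Icc 1 M, (1 : ℝ) / m with hH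
  have hH0 : 0 ≤ H := sum_nonneg (fun _ _ => by positivity)
  have h1 : ∀ d ∈ Icc 1 M, f d / d ≤ ∑ l ∈ PM.powerset, if w l ∣ d then pr x l * (1 / (d : ℝ)) else 0 := by
    intro d hd
    rw [mem_Icc] at hd
    rw [← sum_filter, ← sum_mul, div_eq_mul_one_div]
    apply mul_le_mul_of_nonneg_right _ (by positivity)
    unfold f
    rw [prod_one_add]
    apply sum_le_sum_of_subset_of_nonneg
    · intro l hl
      rw [mem_powerset] at hl
      rw [mem_filter, mem_powerset]
      constructor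
      · intro p hp
        rw [hPM, mem_filter, mem_range]
        have := Nat.le_of_mem_primeFactors (hl hp)
        exact ⟨by omega, Nat.prime_of_mem_primeFactors (hl hp)⟩
      · exact (prod_dvd_prod_of_subset _ _ _ hl).trans (Nat.prod_primeFactors_dvd d)
    · intro l hl _
      rw [mem_filter, mem_powerset] at hl
      exact pr_nonneg_x (fun p hp => hprime p (hl.1 hp))
  refine (sum_le_sum h1).trans ?_
  rw [sum_comm]
  have h2 : ∀ l ∈ PM.powerset, (∑ d ∈ Icc 1 M, if w l ∣ d then pr x l * (1 / (d : ℝ)) else 0) ≤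
      pr x l * (1 / (w l : ℝ)) * H := by
    intro l hl
    rw [mem_powerset] at hl
    have hwp : 0 < w l := prod_pos (fun p hp => (hprime p (hl hp)).pos)
    have hx0 : 0 ≤ pr x l := pr_nonneg_x (fun p hp => hprime p (hl hp))
    rw [← sum_filter, ← mul_sum, mul_assoc]
    apply mul_le_mul_of_nonneg_left _ hx0
    rw [hH, mul_sum]
    have h3 : ∑ d ∈ (Icc 1 M).filter (fun d => w l ∣ d), (1 : ℝ) / (d : ℝ) =
        ∑ m ∈ ((Icc 1 M).filter (fun d => w l ∣ d)).image (fun d => d / w l), 1 / (w l : ℝ) * (1 / (m : ℝ)) := by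
      rw [sum_image]
      · apply sum_congr rfl
        intro d hd
        obtain ⟨k, rfl⟩ := (mem_filter.1 hd).2
        rw [Nat.mul_div_cancel_left k hwp]
        push_cast
        rw [one_div_mul_one_div]
      · intro u hu v hv huv
        simp only [coe_filter, Set.mem_ofPred_eq] at hu hv
        simp only at huv
        rw [← Nat.mul_div_cancel' hu.2, ← Nat.mul_div_cancel' hv.2, huv]
    rw [h3]
    apply sum_le_sum_of_subset_of_nonneg
    · intro m hm
      rw [mem_image] at hm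
      obtain ⟨d, hd, rfl⟩ := hm
      rw [mem_filter, mem_Icc] at hd
      rw [mem_Icc]
      constructor
      · exact Nat.div_pos (Nat.le_of_dvd (by omega) hd.2) hwp
      · exact (Nat.div_le_self _ _).trans hd.1.2
    · intros; positivity
  refine (sum_le_sum h2).trans ?_
  rw [← sum_mul]
  apply mul_le_mul_of_nonneg_right _ hH0
  have h4 : ∑ l ∈ PM.powerset, pr x l * (1 / (w l : ℝ)) = ∏ p ∈ PM, (1 + x p / p) := by
    rw [prod_one_add]
    apply sum_congr rfl
    intro l _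
    unfold pr w
    push_cast
    rw [prod_div_distrib, mul_one_div]
  rw [h4]
  have h5 : ∏ p ∈ PM, (1 + x p / p) ≤ Real.exp (∑ p ∈ PM, x p / p) := by
    rw [Real.exp_sum]
    apply prod_le_prod
    · intro p hp
      have := x_nonneg (hprime p hp)
      positivity
    · intro p _
      have := Real.add_one_le_exp (x p / p)
      linarith
  have h6 : ∑ p ∈ PM, x p / p ≤ 1 := by
    refine le_trans ?_ (sum_tele M)
    have e : ∑ p ∈ PM, x p / p = ∑ p ∈ PM, (1 : ℝ) / (p * (p - 1)) := by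
      apply sum_congr rfl
      intro p hp
      unfold x
      rw [div_div, mul_comm]
    rw [e]
    apply sum_le_sum_of_subset_of_nonneg
    · intro p hp
      rw [hPM, mem_filter, mem_range] at hp
      rw [mem_Icc]
      exact ⟨hp.2.two_le, by omega⟩
    · intro n hn _
      rw [mem_Icc] at hn
      have : (2 : ℝ) ≤ n := by exact_mod_cast hn.1
      apply div_nonneg zero_le_one
      nlinarith
  have h7 : Real.exp (∑ p ∈ PM, x p / p) ≤ Real.exp 1 := Real.exp_le_exp.2 h6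
  have h8 := Real.exp_one_lt_d9
  linarith

lemma H_le (v : ℕ) : ∑ m ∈ Icc (1 : ℕ) (2 ^ v), (1 : ℝ) / (m : ℝ) ≤ (v : ℝ) + 1 := by
  have h2 := harmonic_le_one_add_log (2 ^ v)
  have h3 : ((harmonic (2 ^ v) : ℚ) : ℝ) = ∑ n ∈ Icc (1 : ℕ) (2 ^ v), (1 : ℝ) / (n : ℝ) := by
    rw [harmonic_eq_sum_Icc]
    push_cast
    apply sum_congr rfl
    intro n _
    rw [one_div]
  rw [h3] at h2
  have h4 : Real.log ((2 ^ v : ℕ) : ℝ) ≤ v := by
    push_cast
    rw [Real.log_pow]
    have : Real.log 2 ≤ 1 := by have := Real.log_two_lt_d9; linarith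
    have hv : (0 : ℝ) ≤ v := by positivity
    nlinarith
  linarith

/-- summed pair bound -/
theorem total (U v : ℕ) (a : ℕ → ℕ) :
    ∑ d ∈ Icc (1 : ℕ) (2 ^ v), (N (a d) (2 ^ (U + 2)) d : ℝ) / d ≤
      150000 * ((v : ℝ) + 1) * (2 ^ U / ((U : ℝ) + 1) ^ 2) := by
  have hq : (0 : ℝ) < 2 ^ U / ((U : ℝ) + 1) ^ 2 := by positivity
  calc ∑ d ∈ Icc (1 : ℕ) (2 ^ v), (N (a d) (2 ^ (U + 2)) d : ℝ) / d
      ≤ ∑ d ∈ Icc (1 : ℕ) (2 ^ v), (50000 * (2 ^ U / ((U : ℝ) + 1) ^ 2)) * (f d / d) := by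
        apply sum_le_sum
        intro d hd
        rw [mem_Icc] at hd
        have h := N_bound U d (a d) (by omega)
        have hd0 : (0 : ℝ) < d := by exact_mod_cast (by omega : 0 < d)
        rw [mul_div_assoc', div_le_div_iff_of_pos_right hd0]
        linarith
    _ = (50000 * (2 ^ U / ((U : ℝ) + 1) ^ 2)) * ∑ d ∈ Icc (1 : ℕ) (2 ^ v), f d / d := by rw [mul_sum]
    _ ≤ (50000 * (2 ^ U / ((U : ℝ) + 1) ^ 2)) * (3 * ((v : ℝ) + 1)) := by
        apply mul_le_mul_of_nonneg_left _ (by positivity)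
        have h1 := f_sum (2 ^ v)
        have h2 := H_le v
        linarith
    _ = 150000 * ((v : ℝ) + 1) * (2 ^ U / ((U : ℝ) + 1) ^ 2) := by ring

end Pool.Agent.H25.PairBound
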